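import Mathlib

/-!
Matrix identities.
-/

open Matrix

namespace Pool.Agent.Helper92.AM

/-- the matrix algebra -/
abbrev R := Matrix (Fin 4) (Fin 4) ℂ

/-- rank at most one -/
def Rk (A : R) : Prop := ∃ v φ : Fin 4 → ℂ, A = vecMulVec v φ

lemma Rk.sandwich {N : R} (h : Rk N) (A : R) : N * A * N = (A * N).trace • N := by
  obtain ⟨v, φ, rfl⟩ := h
  rw [vecMulVec_mul, vecMulVec_mul_vecMulVec, mul_vecMulVec, trace_vecMulVec, vecMulVec_smul,
    ← dotProduct_mulVec, dotProduct_comm]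

lemma Rk.conj {N : R} (h : Rk N) (A B : R) : Rk (A * N * B) := by
  obtain ⟨v, φ, rfl⟩ := h
  exact ⟨A *ᵥ v, φ ᵥ* B, by rw [mul_vecMulVec, vecMulVec_mul]⟩

lemma Rk.comm_zero {N M : R} (hN : Rk N) (hM : Rk M) (hNN : N * N = 0) (h : N * M = M * N) :
    N * M = 0 := by
  by_cases h0 : N = 0
  · rw [h0, zero_mul]
  · have h1 := hN.sandwich M
    rw [mul_assoc, ← h, ← mul_assoc, hNN, zero_mul] at h1
    have h2 : (N * M).trace = 0 := (smul_eq_zero.1 h1.symm).resolve_right h0
    obtain ⟨v, φ, rfl⟩ := hN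
    obtain ⟨w, ψ, rfl⟩ := hM
    rw [vecMulVec_mul_vecMulVec, trace_vecMulVec, dotProduct_smul, smul_eq_mul] at h2
    rcases mul_eq_zero.1 h2 with h3 | h3
    · rw [vecMulVec_mul_vecMulVec, h3, zero_smul, vecMulVec_zero]
    · rw [h, vecMulVec_mul_vecMulVec, dotProduct_comm ψ v, h3, zero_smul, vecMulVec_zero]

lemma one_add_pow {N : R} (h : N * N = 0) (m : ℕ) : (1 + N) ^ m = 1 + (m : ℂ) • N := by
  induction m with
  | zero => simp
  | succ m ih =>
    rw [pow_succ, ih, mul_add, mul_one, add_mul, one_mul, smul_mul_assoc, h, smul_zero, add_zero]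
    push_cast
    module

/-- the quadratic family -/
lemma quad {N0 P Q A : R} (h0 : N0 ≠ 0) (hA : N0 * A = A * N0) (h00 : N0 * N0 = 0)
    (h0P : N0 * P = 0) (hP0 : P * N0 = 0) (h0Q : N0 * Q = 0) (hQ0 : Q * N0 = 0)
    (hk : ∀ c : ℂ, c = 0 ∨ c = 1 ∨ c = -1 ∨ c = 2 ∨ c = -2 →
      (N0 + c • P + c ^ 2 • Q) * A * (N0 + c • P + c ^ 2 • Q) =
        (A * (N0 + c • P + c ^ 2 • Q)).trace • (N0 + c • P + c ^ 2 • Q)) :
    (A * N0).trace = 0 ∧ (A * P).trace = 0 ∧ P * A * P = (A * Q).trace • N0 := by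
  have k1 : N0 * A * N0 = 0 := by rw [hA, mul_assoc, h00, mul_zero]
  have k2 : N0 * A * P = 0 := by rw [hA, mul_assoc, h0P, mul_zero]
  have k3 : P * A * N0 = 0 := by rw [mul_assoc, ← hA, ← mul_assoc, hP0, zero_mul]
  have k4 : N0 * A * Q = 0 := by rw [hA, mul_assoc, h0Q, mul_zero]
  have k5 : Q * A * N0 = 0 := by rw [mul_assoc, ← hA, ← mul_assoc, hQ0, zero_mul]
  have t0 : (A * N0).trace = 0 := by
    have := hk 0 (Or.inl rfl)
    simp only [zero_smul, add_zero, ne_eq, OfNat.ofNat_ne_zero, not_false_eq_true, zero_pow] at this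
    rw [k1] at this
    exact (smul_eq_zero.1 this.symm).resolve_right h0
  have ex : ∀ c : ℂ, c = 0 ∨ c = 1 ∨ c = -1 ∨ c = 2 ∨ c = -2 →
      c ^ 2 • (P * A * P) + c ^ 3 • (P * A * Q + Q * A * P) + c ^ 4 • (Q * A * Q) =
        (c * (A * P).trace + c ^ 2 * (A * Q).trace) • (N0 + c • P + c ^ 2 • Q) := by
    intro c hc
    have h := hk c hc
    simp only [mul_add, add_mul, mul_smul_comm, smul_mul_assoc, trace_add, trace_smul, t0,
      k1, k2, k3, k4, k5, smul_eq_mul, zero_add, smul_zero, add_zero] at h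
    simp only [smul_add, smul_smul] at h ⊢
    rw [← sub_eq_zero] at h ⊢
    rw [← h]
    module
  have e1 := ex 1 (by simp)
  have e2 := ex (-1) (by simp)
  have e3 := ex 2 (by simp)
  have e4 := ex (-2) (by simp)
  have t1 : (A * P).trace = 0 := by
    have : (A * P).trace • N0 = 0 := by
      linear_combination (norm := module) (1 / 12 : ℂ) • e3 - (8 / 12 : ℂ) • e1 + (8 / 12 : ℂ) • e2
        - (1 / 12 : ℂ) • e4
    exact (smul_eq_zero.1 this).resolve_right h0
  refine ⟨t0, t1, ?_⟩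
  rw [t1] at e1 e2 e3 e4
  linear_combination (norm := module) -(1 / 24 : ℂ) • e3 + (16 / 24 : ℂ) • e1 + (16 / 24 : ℂ) • e2
        - (1 / 24 : ℂ) • e4

/-- the main computation -/
lemma core {N0 G y y' D : R} {a b μ : ℂ} (h0 : N0 ≠ 0) (hy : y * y' = 1) (hy' : y' * y = 1)
    (hc : N0 * y = y * N0) (hμ : N0 * y = μ • N0) (h00 : N0 * N0 = 0) (hGG : G * G = 0)
    (h0G : N0 * G = 0) (hG0 : G * N0 = 0) (ha : G * y * G = a • N0) (hb : G * y' * G = b • N0)
    (r1 : (1 + G) * y = y * D * (1 + (96 : ℂ) • N0) * (1 + G)) (r2 : D * y = y * D)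
    (r3 : (1 + G) * D = D * (1 + (192 : ℂ) • N0) * (1 + G)) : a * b = -9216 := by
  have hμ0 : μ ≠ 0 := by
    rintro rfl
    apply h0
    calc N0 = N0 * y * y' := by rw [mul_assoc, hy, mul_one]
      _ = 0 := by rw [hμ, zero_smul, zero_mul]
  have hyN : y' * N0 = μ⁻¹ • N0 := by
    have h1 : y' * (y * N0) = N0 := by rw [← mul_assoc, hy', one_mul]
    rw [← hc, hμ, mul_smul_comm] at h1
    conv_rhs => rw [← h1]
    rw [smul_smul, inv_mul_cancel₀ hμ0, one_smul]
  have hG'G : y' * G * y * G = (a * μ⁻¹) • N0 := by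
    calc y' * G * y * G = y' * (G * y * G) := by noncomm_ring
      _ = (a * μ⁻¹) • N0 := by rw [ha, mul_smul_comm, hyN, smul_smul]
  have hGG' : G * (y' * G * y) = (b * μ) • N0 := by
    calc G * (y' * G * y) = (G * y' * G) * y := by noncomm_ring
      _ = (b * μ) • N0 := by rw [hb, smul_mul_assoc, hμ, smul_smul]
  have hG'0 : y' * G * y * N0 = 0 := by
    rw [mul_assoc, ← hc, ← mul_assoc, mul_assoc y' G N0, hG0, mul_zero, zero_mul]
  have hD : D = 1 + y' * G * y - G - (a * μ⁻¹ + 96) • N0 := by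
    have h1 : (1 + (96 : ℂ) • N0) * (1 + G) * ((1 - G) * (1 - (96 : ℂ) • N0)) = 1 := by
      have : (1 + G) * (1 - G) = 1 := by
        simp only [mul_sub, add_mul, mul_one, one_mul, hGG]
        module
      calc (1 + (96 : ℂ) • N0) * (1 + G) * ((1 - G) * (1 - (96 : ℂ) • N0)) =
            (1 + (96 : ℂ) • N0) * ((1 + G) * (1 - G)) * (1 - (96 : ℂ) • N0) := by noncomm_ring
        _ = 1 := by
            rw [this, mul_one]
            simp only [mul_sub, add_mul, mul_one, one_mul, smul_mul_assoc, mul_smul_comm, h00,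
              smul_zero]
            module
    have h2 : y' * (1 + G) * y = D * ((1 + (96 : ℂ) • N0) * (1 + G)) := by
      calc y' * (1 + G) * y = y' * ((1 + G) * y) := by noncomm_ring
        _ = y' * (y * D * (1 + (96 : ℂ) • N0) * (1 + G)) := by rw [r1]
        _ = (y' * y) * D * ((1 + (96 : ℂ) • N0) * (1 + G)) := by noncomm_ring
        _ = D * ((1 + (96 : ℂ) • N0) * (1 + G)) := by rw [hy', one_mul]
    have h3 : y' * (1 + G) * y = 1 + y' * G * y := by
      rw [mul_add, mul_one, add_mul, hy']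
    calc D = D * ((1 + (96 : ℂ) • N0) * (1 + G) * ((1 - G) * (1 - (96 : ℂ) • N0))) := by
          rw [h1, mul_one]
      _ = D * ((1 + (96 : ℂ) • N0) * (1 + G)) * ((1 - G) * (1 - (96 : ℂ) • N0)) := by noncomm_ring
      _ = (1 + y' * G * y) * ((1 - G) * (1 - (96 : ℂ) • N0)) := by rw [← h2, h3]
      _ = 1 + y' * G * y - G - (a * μ⁻¹ + 96) • N0 := by
          simp only [mul_sub, sub_mul, add_mul, mul_one, one_mul, mul_smul_comm, hG0,
            hG'G, hG'0, sub_zero]
          module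
  have E1 : b * μ - a * μ⁻¹ = 192 := by
    have h1 : (1 + G) * D = 1 + y' * G * y + (b * μ) • N0 - (a * μ⁻¹ + 96) • N0 := by
      rw [hD]
      simp only [mul_sub, mul_add, add_mul, one_mul, mul_one, mul_smul_comm, hG0, smul_zero,
        hGG, hGG']
      module
    have h2 : D * (1 + (192 : ℂ) • N0) * (1 + G) =
        1 + y' * G * y + (a * μ⁻¹) • N0 - (a * μ⁻¹ + 96) • N0 + (192 : ℂ) • N0 := by
      rw [hD]
      simp only [mul_add, sub_mul, add_mul, one_mul, mul_one, mul_smul_comm,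
        smul_mul_assoc, hG0, smul_zero, hGG, h00, h0G, hG'G, hG'0, zero_mul]
      module
    rw [h1, h2, ← sub_eq_zero] at r3
    have h3 : (b * μ - a * μ⁻¹ - 192) • N0 = 0 := by
      rw [← r3]; module
    have := (smul_eq_zero.1 h3).resolve_right h0
    linear_combination this
  have E2 : a * μ⁻¹ = -(b * μ) := by
    have h1 : y * (y' * G * y) = G * y := by
      rw [← mul_assoc, ← mul_assoc, hy, one_mul]
    have h2 : y' * G * y * y = (2 : ℂ) • (G * y) - y * G := by
      rw [hD] at r2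
      simp only [mul_sub, mul_add, sub_mul, add_mul, one_mul, mul_one, mul_smul_comm,
        smul_mul_assoc, h1, hc] at r2
      rw [← sub_eq_zero] at r2 ⊢
      rw [← r2]
      module
    have h3 : y' * G * y = (2 : ℂ) • G - y * G * y' := by
      calc y' * G * y = y' * G * y * y * y' := by rw [mul_assoc (y' * G * y) y y', hy, mul_one]
        _ = ((2 : ℂ) • (G * y) - y * G) * y' := by rw [h2]
        _ = (2 : ℂ) • G - y * G * y' := by
          rw [sub_mul, smul_mul_assoc, mul_assoc G y y', hy, mul_one]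
    have h4 : y' * G * y * G = -((b * μ) • N0) := by
      rw [h3, sub_mul, smul_mul_assoc, hGG, smul_zero, zero_sub]
      congr 1
      calc y * G * y' * G = y * (G * y' * G) := by noncomm_ring
        _ = (b * μ) • N0 := by rw [hb, mul_smul_comm, ← hc, hμ, smul_smul]
    rw [hG'G, ← neg_smul, ← sub_eq_zero, ← sub_smul] at h4
    have := (smul_eq_zero.1 h4).resolve_right h0
    linear_combination this
  have hbm : b * μ = 96 := by linear_combination (1 / 2 : ℂ) * E1 + (1 / 2 : ℂ) * E2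
  have ham : a * μ⁻¹ = -96 := by rw [E2, hbm]
  calc a * b = (a * μ⁻¹) * (b * μ) := by field_simp
    _ = -9216 := by rw [hbm, ham]; norm_num

end Pool.Agent.Helper92.AM
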