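import Mathlib

/-!
Eigenvalues of a central commutator.
-/

open Module Polynomial

namespace Pool.Agent.Helper92.AM

variable {V : Type*} [AddCommGroup V] [Module ℂ V] [FiniteDimensional ℂ V]

/-- If `c` commutes with the invertible maps `g`, `h` and `g h = h g c²`, then every eigenvalue `μ` of
`c` satisfies `μ ^ 24 = 1` in dimension at most 4. -/
theorem eig_pow {c g g' h h' : End ℂ V} (hV : finrank ℂ V ≤ 4) (hg : g * g' = 1) (hg' : g' * g = 1)
    (hh : h * h' = 1) (hh' : h' * h = 1) (hcg : Commute c g) (hch : Commute c h)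
    (hc : g * h = h * g * c ^ 2) {μ : ℂ} (hμ : c.HasEigenvalue μ) : μ ^ 24 = 1 := by
  have hcg' : Commute c g' := by
    show c * g' = g' * c
    calc c * g' = g' * g * (c * g') := by rw [hg', one_mul]
      _ = g' * (g * c) * g' := by noncomm_ring
      _ = g' * (c * g) * g' := by rw [hcg.eq]
      _ = g' * c * (g * g') := by noncomm_ring
      _ = g' * c := by rw [hg, mul_one]
  have hch' : Commute c h' := by
    show c * h' = h' * c
    calc c * h' = h' * h * (c * h') := by rw [hh', one_mul]
      _ = h' * (h * c) * h' := by noncomm_ring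
      _ = h' * (c * h) * h' := by rw [hch.eq]
      _ = h' * c * (h * h') := by noncomm_ring
      _ = h' * c := by rw [hh, mul_one]
  have mt : ∀ f : End ℂ V, Commute c f → ∀ v ∈ c.eigenspace μ, f v ∈ c.eigenspace μ := by
    intro f hf v hv
    rw [End.mem_eigenspace_iff] at hv ⊢
    have : c (f v) = f (c v) := congrArg (fun k : End ℂ V => k v) hf.eq
    rw [this, hv, map_smul]
  set E := c.eigenspace μ with hE
  let r : ∀ f : End ℂ V, Commute c f → End ℂ E := fun f hf => f.restrict (mt f hf)
  have hc2 : Commute c (c ^ 2) := Commute.pow_right rfl 2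
  have h1 : r g hcg * r h hch = r h hch * r g hcg * r (c ^ 2) hc2 := by
    ext v
    exact congrArg (fun k : End ℂ V => k v.1) hc
  have h2 : r (c ^ 2) hc2 = (μ ^ 2) • (1 : End ℂ E) := by
    ext v
    have hv := (End.mem_eigenspace_iff).1 v.2
    show (c ^ 2) v.1 = μ ^ 2 • v.1
    rw [pow_two, Module.End.mul_apply, hv, map_smul, hv, smul_smul, pow_two]
  have h3 : r g hcg * r g' hcg' = 1 := by
    ext v
    exact congrArg (fun k : End ℂ V => k v.1) hg
  have h4 : r h hch * r h' hch' = 1 := by
    ext v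
    exact congrArg (fun k : End ℂ V => k v.1) hh
  have d3 : LinearMap.det (r g hcg) ≠ 0 := by
    intro h0
    have := congrArg LinearMap.det h3
    rw [map_mul, h0, zero_mul, map_one] at this
    exact zero_ne_one this
  have d4 : LinearMap.det (r h hch) ≠ 0 := by
    intro h0
    have := congrArg LinearMap.det h4
    rw [map_mul, h0, zero_mul, map_one] at this
    exact zero_ne_one this
  have d1 := congrArg LinearMap.det h1
  rw [h2, map_mul, map_mul, map_mul, LinearMap.det_smul, map_one, mul_one, ← pow_mul] at d1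
  have hk : μ ^ (2 * finrank ℂ E) = 1 := by
    have : LinearMap.det (r h hch) * LinearMap.det (r g hcg) * μ ^ (2 * finrank ℂ E) =
      LinearMap.det (r h hch) * LinearMap.det (r g hcg) * 1 := by rw [← d1]; ring
    exact mul_left_cancel₀ (mul_ne_zero d4 d3) this
  have hE1 : finrank ℂ E ≤ 4 := (Submodule.finrank_le _).trans hV
  have hE0 : 0 < finrank ℂ E := by
    have : E ≠ ⊥ := hμ
    exact Nat.pos_of_ne_zero fun h => this (Submodule.finrank_eq_zero.1 h)
  obtain ⟨j, hj⟩ : ∃ j, 24 = 2 * finrank ℂ E * j := by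
    have : finrank ℂ E = 1 ∨ finrank ℂ E = 2 ∨ finrank ℂ E = 3 ∨ finrank ℂ E = 4 := by omega
    rcases this with h | h | h | h <;> rw [h]
    exacts [⟨12, rfl⟩, ⟨6, rfl⟩, ⟨4, rfl⟩, ⟨3, rfl⟩]
  rw [hj, pow_mul, hk, one_pow]

theorem dvd_of_roots (s : Multiset ℂ) (q : ℂ[X]) (h : ∀ a ∈ s, q.IsRoot a) :
    (s.map fun a => X - C a).prod ∣ q ^ Multiset.card s := by
  induction s using Multiset.induction_on with
  | empty => simp
  | cons a s ih =>
    rw [Multiset.map_cons, Multiset.prod_cons, Multiset.card_cons, pow_succ, mul_comm]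
    refine mul_dvd_mul (ih fun b hb => h b (Multiset.mem_cons_of_mem hb)) ?_
    rw [dvd_iff_isRoot]
    exact h a (Multiset.mem_cons_self a s)

theorem pow_sub_one_nilp {c g g' h h' : End ℂ V} (hV : finrank ℂ V = 4) (hg : g * g' = 1)
    (hg' : g' * g = 1) (hh : h * h' = 1) (hh' : h' * h = 1) (hcg : Commute c g) (hch : Commute c h)
    (hc : g * h = h * g * c ^ 2) : (c ^ 24 - 1) ^ 4 = 0 := by
  have hs : c.charpoly.Splits := IsAlgClosed.splits _
  have hp : c.charpoly = (c.charpoly.roots.map fun a => X - C a).prod :=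
    hs.eq_prod_roots_of_monic c.charpoly_monic
  have hcard : Multiset.card c.charpoly.roots = 4 := by
    rw [← hs.natDegree_eq_card_roots, LinearMap.charpoly_natDegree, hV]
  have hd : c.charpoly ∣ (X ^ 24 - 1 : ℂ[X]) ^ 4 := by
    have h0 := dvd_of_roots c.charpoly.roots (X ^ 24 - 1) (fun a ha => by
      have hr : c.HasEigenvalue a := by
        rw [Module.End.hasEigenvalue_iff_isRoot_charpoly]
        exact isRoot_of_mem_roots ha
      have := eig_pow hV.le hg hg' hh hh' hcg hch hc hr
      simp [IsRoot, this])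
    rwa [hcard, ← hp] at h0
  obtain ⟨q, hq⟩ := hd
  have h1 : aeval c ((X ^ 24 - 1 : ℂ[X]) ^ 4) = 0 := by
    rw [hq, map_mul, LinearMap.aeval_self_charpoly, zero_mul]
  have h2 : aeval c ((X ^ 24 - 1 : ℂ[X]) ^ 4) = (c ^ 24 - 1) ^ 4 := by
    rw [map_pow, map_sub, map_pow, aeval_X, map_one]
  rw [← h2, h1]

end Pool.Agent.Helper92.AM
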