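import Mathlib

/-!
The nilpotent group `E = ℤ³ ⋊ ℤ` of class 3.
-/

namespace Pool.Agent.Helper92.AM

/-- The group `ℤ³ ⋊ ℤ`: the element `k` of the right factor `ℤ` acts on `ℤ³` by
`(u, v, w) ↦ (u, v + k u, w + 2 k v + k² u)`. -/
@[ext]
structure E where
  u : ℤ
  v : ℤ
  w : ℤ
  k : ℤ

namespace E

instance : Mul E := ⟨fun a b =>
  ⟨a.u + b.u, a.v + (b.v + a.k * b.u), a.w + (b.w + 2 * a.k * b.v + a.k ^ 2 * b.u), a.k + b.k⟩⟩

instance : One E := ⟨⟨0, 0, 0, 0⟩⟩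

instance : Inv E := ⟨fun a =>
  ⟨-a.u, -a.v + a.k * a.u, -a.w + 2 * a.k * a.v - a.k ^ 2 * a.u, -a.k⟩⟩

lemma mul_def (a b : E) : a * b =
  ⟨a.u + b.u, a.v + (b.v + a.k * b.u), a.w + (b.w + 2 * a.k * b.v + a.k ^ 2 * b.u), a.k + b.k⟩ := rfl

lemma one_def : (1 : E) = ⟨0, 0, 0, 0⟩ := rfl

lemma inv_def (a : E) : a⁻¹ =
  ⟨-a.u, -a.v + a.k * a.u, -a.w + 2 * a.k * a.v - a.k ^ 2 * a.u, -a.k⟩ := rfl

instance : Group E := Group.ofLeftAxioms
  (fun a b c => by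
    simp only [mul_def]
    ext <;> simp only [] <;> ring)
  (fun a => by
    simp only [mul_def, one_def]
    ext <;> simp only [] <;> ring)
  (fun a => by
    simp only [mul_def, one_def, inv_def]
    ext <;> simp only [] <;> ring)

/-- the members of an ascending central series -/
def Z : ℕ → Subgroup E
  | 0 => ⊥
  | 1 =>
    { carrier := {a | a.u = 0 ∧ a.v = 0 ∧ a.k = 0}
      one_mem' := ⟨rfl, rfl, rfl⟩
      mul_mem' := by
        rintro a b ⟨h1, h2, h3⟩ ⟨h4, h5, h6⟩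
        simp [mul_def, h1, h2, h3, h4, h5, h6]
      inv_mem' := by
        rintro a ⟨h1, h2, h3⟩
        simp [inv_def, h1, h2, h3] }
  | 2 =>
    { carrier := {a | a.u = 0 ∧ a.k = 0}
      one_mem' := ⟨rfl, rfl⟩
      mul_mem' := by
        rintro a b ⟨h1, h2⟩ ⟨h3, h4⟩
        simp [mul_def, h1, h2, h3, h4]
      inv_mem' := by
        rintro a ⟨h1, h2⟩
        simp [inv_def, h1, h2] }
  | _ => ⊤

theorem isNilpotent : Group.IsNilpotent E := by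
  rw [Subgroup.nilpotent_iff_finite_ascending_central_series]
  refine ⟨3, Z, ⟨rfl, ?_⟩, rfl⟩
  intro a n ha b
  match n, ha with
  | 0, ha =>
    obtain ⟨h1, h2, h3⟩ : a.u = 0 ∧ a.v = 0 ∧ a.k = 0 := ha
    show a * b * a⁻¹ * b⁻¹ ∈ (⊥ : Subgroup E)
    rw [Subgroup.mem_bot]
    simp only [mul_def, one_def, inv_def, h1, h2, h3]
    ext <;> simp only [] <;> ring
  | 1, ha =>
    obtain ⟨h1, h2⟩ : a.u = 0 ∧ a.k = 0 := ha
    show a * b * a⁻¹ * b⁻¹ ∈ {a : E | a.u = 0 ∧ a.v = 0 ∧ a.k = 0}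
    simp only [mul_def, inv_def, h1, h2, Set.mem_ofPred_eq]
    refine ⟨?_, ?_, ?_⟩ <;> ring
  | 2, _ =>
    show a * b * a⁻¹ * b⁻¹ ∈ {a : E | a.u = 0 ∧ a.k = 0}
    simp only [mul_def, inv_def, Set.mem_ofPred_eq]
    refine ⟨?_, ?_⟩ <;> ring
  | (n + 3), _ => trivial

lemma zpow_k (m : ℤ) : (⟨0, 0, 0, 1⟩ : E) ^ m = ⟨0, 0, 0, m⟩ := by
  let f : Multiplicative ℤ →* E :=
    { toFun := fun m => ⟨0, 0, 0, m.toAdd⟩
      map_one' := rfl
      map_mul' := fun a b => by simp [mul_def] }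
  have := (map_zpow f (Multiplicative.ofAdd 1) m).symm
  rw [← ofAdd_zsmul] at this
  simpa [f] using this

lemma zpow_u (m : ℤ) : (⟨1, 0, 0, 0⟩ : E) ^ m = ⟨m, 0, 0, 0⟩ := by
  let f : Multiplicative ℤ →* E :=
    { toFun := fun m => ⟨m.toAdd, 0, 0, 0⟩
      map_one' := rfl
      map_mul' := fun a b => by simp [mul_def] }
  have := (map_zpow f (Multiplicative.ofAdd 1) m).symm
  rw [← ofAdd_zsmul] at this
  simpa [f] using this

lemma zpow_v (m : ℤ) : (⟨0, 1, 0, 0⟩ : E) ^ m = ⟨0, m, 0, 0⟩ := by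
  let f : Multiplicative ℤ →* E :=
    { toFun := fun m => ⟨0, m.toAdd, 0, 0⟩
      map_one' := rfl
      map_mul' := fun a b => by simp [mul_def] }
  have := (map_zpow f (Multiplicative.ofAdd 1) m).symm
  rw [← ofAdd_zsmul] at this
  simpa [f] using this

lemma zpow_w (m : ℤ) : (⟨0, 0, 1, 0⟩ : E) ^ m = ⟨0, 0, m, 0⟩ := by
  let f : Multiplicative ℤ →* E :=
    { toFun := fun m => ⟨0, 0, m.toAdd, 0⟩
      map_one' := rfl
      map_mul' := fun a b => by simp [mul_def] }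
  have := (map_zpow f (Multiplicative.ofAdd 1) m).symm
  rw [← ofAdd_zsmul] at this
  simpa [f] using this

/-- the generators -/
def gens : Fin 4 → E := ![⟨1, 0, 0, 0⟩, ⟨0, 1, 0, 0⟩, ⟨0, 0, 1, 0⟩, ⟨0, 0, 0, 1⟩]

theorem closure_gens : Subgroup.closure (Set.range gens) = ⊤ := by
  rw [eq_top_iff]
  rintro ⟨u, v, w, k⟩ -
  have h : (⟨u, v, w, k⟩ : E) = gens 0 ^ u * gens 1 ^ v * gens 2 ^ w * gens 3 ^ k := by
    show _ = (⟨1, 0, 0, 0⟩ : E) ^ u * (⟨0, 1, 0, 0⟩ : E) ^ v * (⟨0, 0, 1, 0⟩ : E) ^ w *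
      (⟨0, 0, 0, 1⟩ : E) ^ k
    rw [zpow_k, zpow_u, zpow_v, zpow_w]
    simp [mul_def]
  rw [h]
  have m : ∀ i, gens i ∈ Subgroup.closure (Set.range gens) := fun i =>
    Subgroup.subset_closure ⟨i, rfl⟩
  exact mul_mem (mul_mem (mul_mem (zpow_mem (m 0) u) (zpow_mem (m 1) v)) (zpow_mem (m 2) w))
    (zpow_mem (m 3) k)

theorem fg : Group.FG E := by
  rw [Group.fg_iff]
  exact ⟨Set.range gens, closure_gens, Set.finite_range _⟩

end E

end Pool.Agent.Helper92.AM
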