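import Mathlib

/-!
The nilpotent part of a central commutator in dimension 4 has rank at most one.
-/

open Module

namespace Pool.Agent.Helper92.AM

variable {V : Type*} [AddCommGroup V] [Module ℂ V]

section

variable {n g h : End ℂ V}

lemma comm_app {f k : End ℂ V} (h : Commute f k) (v : V) : f (k v) = k (f v) :=
  congrArg (fun k : End ℂ V => k v) h.eq

lemma gh_app (hgh : g * h = h * g * (1 + n)) (v : V) : g (h v) = h (g v) + h (g (n v)) := by
  have := congrArg (fun k : End ℂ V => k v) hgh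
  simpa [mul_add, Module.End.mul_apply] using this

lemma lemA (hg : Function.Injective g) (hh : Function.Injective h) (hng : Commute n g)
    (hnh : Commute n h) (hgh : g * h = h * g * (1 + n)) {e : V} (h1 : n e ≠ 0) (h2 : n (n e) = 0)
    {a b a' b' : ℂ} (he : g e = a • e + b • n e) (he' : h e = a' • e + b' • n e) : False := by
  have e1 := gh_app hgh e
  have e2 : g (h e) = h (g e) := by
    have k1 : g (n e) = a • n e := by
      rw [← comm_app hng, he, map_add, map_smul, map_smul, h2, smul_zero, add_zero]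
    have k2 : h (n e) = a' • n e := by
      rw [← comm_app hnh, he', map_add, map_smul, map_smul, h2, smul_zero, add_zero]
    have k3 : g (a' • e + b' • n e) = a' • (a • e + b • n e) + b' • a • n e := by
      rw [map_add, map_smul, map_smul, he, k1]
    have k4 : h (a • e + b • n e) = a • (a' • e + b' • n e) + b • a' • n e := by
      rw [map_add, map_smul, map_smul, he', k2]
    rw [he', he, k3, k4]
    module
  rw [e2, left_eq_add] at e1
  have e3 : g (n e) = 0 := hh (by rw [e1, map_zero])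
  exact h1 (hg (by rw [e3, map_zero]))

lemma span_four [FiniteDimensional ℂ V] (hV : finrank ℂ V = 4) {v0 v1 v2 v3 : V}
    (hi : ∀ a b c d : ℂ, a • v0 + b • v1 + c • v2 + d • v3 = 0 → a = 0 ∧ b = 0 ∧ c = 0 ∧ d = 0)
    (u : V) : ∃ a b c d : ℂ, u = a • v0 + b • v1 + c • v2 + d • v3 := by
  have li : LinearIndependent ℂ ![v0, v1, v2, v3] := by
    rw [Fintype.linearIndependent_iff]
    intro c hc
    simp only [Fin.sum_univ_four, Matrix.cons_val_zero, Matrix.cons_val_one, Matrix.cons_val] at hc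
    obtain ⟨h0, h1, h2, h3⟩ := hi _ _ _ _ hc
    intro i
    fin_cases i <;> assumption
  have sp := li.span_eq_top_of_card_eq_finrank' (by rw [hV]; rfl)
  have hu : u ∈ Submodule.span ℂ (Set.range ![v0, v1, v2, v3]) := by rw [sp]; trivial
  obtain ⟨c, hc⟩ := (Submodule.mem_span_range_iff_exists_fun ℂ).1 hu
  refine ⟨c 0, c 1, c 2, c 3, ?_⟩
  rw [← hc]
  simp [Fin.sum_univ_four]

variable [FiniteDimensional ℂ V]

lemma case4 (hV : finrank ℂ V = 4) (hg : Function.Injective g) (hh : Function.Injective h)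
    (hng : Commute n g) (hnh : Commute n h) (hgh : g * h = h * g * (1 + n))
    (hn : ∀ v, n (n (n (n v))) = 0) (e : V) : n (n (n e)) = 0 := by
  by_contra h3
  have hi : ∀ a b c d : ℂ, a • e + b • n e + c • n (n e) + d • n (n (n e)) = 0 →
      a = 0 ∧ b = 0 ∧ c = 0 ∧ d = 0 := by
    intro a b c d habcd
    have k3 := congrArg (fun v => n (n (n v))) habcd
    simp only [map_add, map_smul, hn, map_zero, smul_zero, add_zero] at k3
    have ha : a = 0 := (smul_eq_zero.1 k3).resolve_right h3
    subst ha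
    have k2 := congrArg (fun v => n (n v)) habcd
    simp only [map_add, map_smul, hn, map_zero, smul_zero, add_zero, zero_smul, zero_add] at k2
    have hb : b = 0 := (smul_eq_zero.1 k2).resolve_right h3
    subst hb
    have k1 := congrArg (fun v => n v) habcd
    simp only [map_add, map_smul, hn, map_zero, smul_zero, add_zero, zero_smul, zero_add] at k1
    have hc : c = 0 := (smul_eq_zero.1 k1).resolve_right h3
    subst hc
    simp only [zero_smul, zero_add] at habcd
    exact ⟨rfl, rfl, rfl, (smul_eq_zero.1 habcd).resolve_right h3⟩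
  obtain ⟨a, b, c, d, hge⟩ := span_four hV hi (g e)
  obtain ⟨a', b', c', d', hhe⟩ := span_four hV hi (h e)
  refine lemA hg hh hng hnh hgh (e := n (n e)) h3 (hn e) (a := a) (b := b) (a' := a') (b' := b')
    ?_ ?_
  · rw [← comm_app hng, ← comm_app hng, hge]
    simp only [map_add, map_smul, hn, smul_zero, add_zero]
  · rw [← comm_app hnh, ← comm_app hnh, hhe]
    simp only [map_add, map_smul, hn, smul_zero, add_zero]

lemma case3 (hV : finrank ℂ V = 4) (hg : Function.Injective g) (hh : Function.Injective h)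
    (hng : Commute n g) (hnh : Commute n h) (hgh : g * h = h * g * (1 + n))
    (hn : ∀ v, n (n (n v)) = 0) (e : V) : n (n e) = 0 := by
  by_contra h3
  obtain ⟨f, hf⟩ : ∃ f : V, f ∉ Submodule.span ℂ (Set.range ![e, n e, n (n e)]) := by
    by_contra hcon
    push Not at hcon
    have htop : Submodule.span ℂ (Set.range ![e, n e, n (n e)]) = ⊤ :=
      Submodule.eq_top_iff'.2 hcon
    have hle := finrank_range_le_card (R := ℂ) ![e, n e, n (n e)]
    rw [Set.finrank, htop, finrank_top, hV, Fintype.card_fin] at hle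
    omega
  have hi : ∀ a b c d : ℂ, a • e + b • n e + c • n (n e) + d • f = 0 →
      a = 0 ∧ b = 0 ∧ c = 0 ∧ d = 0 := by
    intro a b c d habcd
    have hd : d = 0 := by
      by_contra hd
      apply hf
      rw [Submodule.mem_span_range_iff_exists_fun]
      refine ⟨![-(d⁻¹ * a), -(d⁻¹ * b), -(d⁻¹ * c)], ?_⟩
      simp only [Fin.sum_univ_three, Matrix.cons_val_zero, Matrix.cons_val_one, Matrix.cons_val]
      have : f = d⁻¹ • (d • f) := by rw [smul_smul, inv_mul_cancel₀ hd, one_smul]
      have h4 : d • f = -(a • e + b • n e + c • n (n e)) := by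
        rw [eq_neg_iff_add_eq_zero, add_comm]; exact habcd
      rw [this, h4]
      module
    subst hd
    have k2 := congrArg (fun v => n (n v)) habcd
    simp only [map_add, map_smul, hn, map_zero, smul_zero, add_zero, zero_smul] at k2
    have ha : a = 0 := (smul_eq_zero.1 k2).resolve_right h3
    subst ha
    have k1 := congrArg (fun v => n v) habcd
    simp only [map_add, map_smul, hn, map_zero, smul_zero, add_zero, zero_smul, zero_add] at k1
    have hb : b = 0 := (smul_eq_zero.1 k1).resolve_right h3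
    subst hb
    simp only [zero_smul, zero_add, add_zero] at habcd
    exact ⟨rfl, rfl, (smul_eq_zero.1 habcd).resolve_right h3, rfl⟩
  obtain ⟨a, b, c, d, hnf⟩ := span_four hV hi (n f)
  have k := hn f
  rw [hnf] at k
  simp only [map_add, map_smul, hn, smul_zero, add_zero] at k
  rw [hnf] at k
  simp only [map_add, map_smul, hn, smul_zero, add_zero] at k
  rw [hnf] at k
  have k' : (d * d * a) • e + (d * d * b + d * a) • n e + (d * d * c + d * b + a) • n (n e)
      + (d * d * d) • f = 0 := by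
    rw [← k]; module
  obtain ⟨-, -, k3, k4⟩ := hi _ _ _ _ k'
  have hd : d = 0 := by
    rcases mul_eq_zero.1 k4 with h | h
    · rcases mul_eq_zero.1 h with h | h <;> exact h
    · exact h
  subst hd
  have ha : a = 0 := by simpa using k3
  subst ha
  obtain ⟨p, q, r, s, hge⟩ := span_four hV hi (g e)
  obtain ⟨p', q', r', s', hhe⟩ := span_four hV hi (h e)
  refine lemA hg hh hng hnh hgh (e := n e) h3 (hn e) (a := p + s * b) (b := q + s * c)
    (a' := p' + s' * b) (b' := q' + s' * c) ?_ ?_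
  · rw [← comm_app hng, hge]
    simp only [map_add, map_smul, hn, smul_zero, add_zero]
    rw [hnf]
    module
  · rw [← comm_app hnh, hhe]
    simp only [map_add, map_smul, hn, smul_zero, add_zero]
    rw [hnf]
    module

lemma block {P P' Q Q' : Matrix (Fin 2) (Fin 2) ℂ} (h1 : P * Q = Q * P)
    (h2 : P * Q' + P' * Q = Q * P' + Q' * P + Q * P) (hP : P.det ≠ 0) (hQ : Q.det ≠ 0) : False := by
  have uP : IsUnit P.det := isUnit_iff_ne_zero.2 hP
  have uQ : IsUnit Q.det := isUnit_iff_ne_zero.2 hQ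
  have a1 := Matrix.mul_nonsing_inv P uP
  have a2 := Matrix.nonsing_inv_mul P uP
  have b1 := Matrix.mul_nonsing_inv Q uQ
  have b2 := Matrix.nonsing_inv_mul Q uQ
  have cc : Q⁻¹ * P = P * Q⁻¹ := by
    calc Q⁻¹ * P = Q⁻¹ * P * (Q * Q⁻¹) := by rw [b1, mul_one]
      _ = Q⁻¹ * (P * Q) * Q⁻¹ := by noncomm_ring
      _ = (Q⁻¹ * Q) * P * Q⁻¹ := by rw [h1]; noncomm_ring
      _ = P * Q⁻¹ := by rw [b2, one_mul]
  have t := congrArg (fun A => Matrix.trace (P⁻¹ * Q⁻¹ * A)) h2
  have e1 : P⁻¹ * Q⁻¹ * (P * Q' + P' * Q) = Q⁻¹ * Q' + P⁻¹ * Q⁻¹ * P' * Q := by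
    calc P⁻¹ * Q⁻¹ * (P * Q' + P' * Q) = P⁻¹ * (Q⁻¹ * P) * Q' + P⁻¹ * Q⁻¹ * P' * Q := by
          noncomm_ring
      _ = (P⁻¹ * P) * Q⁻¹ * Q' + P⁻¹ * Q⁻¹ * P' * Q := by rw [cc]; noncomm_ring
      _ = Q⁻¹ * Q' + P⁻¹ * Q⁻¹ * P' * Q := by rw [a2, one_mul]
  have e2 : P⁻¹ * Q⁻¹ * (Q * P' + Q' * P + Q * P) = P⁻¹ * P' + P⁻¹ * (Q⁻¹ * Q') * P + 1 := by
    calc P⁻¹ * Q⁻¹ * (Q * P' + Q' * P + Q * P) =
          P⁻¹ * (Q⁻¹ * Q) * P' + P⁻¹ * (Q⁻¹ * Q') * P + P⁻¹ * (Q⁻¹ * Q) * P := by noncomm_ring
      _ = P⁻¹ * P' + P⁻¹ * (Q⁻¹ * Q') * P + 1 := by rw [b2, mul_one, a2]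
  have e3 : Q * P⁻¹ * Q⁻¹ = P⁻¹ := by
    have : Q * P⁻¹ = P⁻¹ * Q := by
      calc Q * P⁻¹ = (P⁻¹ * P) * Q * P⁻¹ := by rw [a2, one_mul]
        _ = P⁻¹ * (P * Q) * P⁻¹ := by noncomm_ring
        _ = P⁻¹ * Q * (P * P⁻¹) := by rw [h1]; noncomm_ring
        _ = P⁻¹ * Q := by rw [a1, mul_one]
    rw [this, mul_assoc, b1, mul_one]
  have t1 : Matrix.trace (P⁻¹ * Q⁻¹ * P' * Q) = Matrix.trace (P⁻¹ * P') := by
    rw [Matrix.trace_mul_comm, ← mul_assoc, ← mul_assoc, e3]
  have t2 : Matrix.trace (P⁻¹ * (Q⁻¹ * Q') * P) = Matrix.trace (Q⁻¹ * Q') := by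
    rw [Matrix.trace_mul_comm, ← mul_assoc, a1, one_mul]
  rw [e1, e2, Matrix.trace_add, Matrix.trace_add, Matrix.trace_add, t1, t2, Matrix.trace_one,
    Fintype.card_fin] at t
  have : (2 : ℂ) = 0 := by push_cast at t; linear_combination -t
  norm_num at this

lemma det_ne_aux {p11 p12 p21 p22 : ℂ}
    (h : ∀ a b : ℂ, p11 * a + p12 * b = 0 → p21 * a + p22 * b = 0 → a = 0 ∧ b = 0) :
    (!![p11, p12; p21, p22] : Matrix (Fin 2) (Fin 2) ℂ).det ≠ 0 := by
  rw [Matrix.det_fin_two_of]
  intro h0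
  obtain ⟨h1, h2⟩ := h p22 (-p21) (by linear_combination h0) (by ring)
  obtain ⟨h3, h4⟩ := h p12 (-p11) (by ring) (by linear_combination -h0)
  have h5 : p21 = 0 := by simpa using h2
  have h6 : p11 = 0 := by simpa using h4
  subst h1 h3 h5 h6
  have := h 1 0 (by ring) (by ring)
  exact one_ne_zero this.1

lemma case2 (hV : finrank ℂ V = 4) (hg : Function.Injective g) (hh : Function.Injective h)
    (hng : Commute n g) (hnh : Commute n h) (hgh : g * h = h * g * (1 + n))
    (hn : ∀ v, n (n v) = 0) (e f : V) :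
    ¬ ∀ a b : ℂ, a • n e + b • n f = 0 → a = 0 ∧ b = 0 := by
  intro hind
  have hi : ∀ a b c d : ℂ, a • e + b • f + c • n e + d • n f = 0 →
      a = 0 ∧ b = 0 ∧ c = 0 ∧ d = 0 := by
    intro a b c d habcd
    have k1 := congrArg (fun v => n v) habcd
    simp only [map_add, map_smul, hn, map_zero, smul_zero, add_zero] at k1
    obtain ⟨rfl, rfl⟩ := hind a b k1
    simp only [zero_smul, zero_add] at habcd
    obtain ⟨rfl, rfl⟩ := hind c d habcd
    exact ⟨rfl, rfl, rfl, rfl⟩
  obtain ⟨p11, p21, p31, p41, hge⟩ := span_four hV hi (g e)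
  obtain ⟨p12, p22, p32, p42, hgf⟩ := span_four hV hi (g f)
  obtain ⟨q11, q21, q31, q41, hhe⟩ := span_four hV hi (h e)
  obtain ⟨q12, q22, q32, q42, hhf⟩ := span_four hV hi (h f)
  have hgne : g (n e) = p11 • n e + p21 • n f := by
    rw [← comm_app hng, hge]
    simp only [map_add, map_smul, hn, smul_zero, add_zero]
  have hgnf : g (n f) = p12 • n e + p22 • n f := by
    rw [← comm_app hng, hgf]
    simp only [map_add, map_smul, hn, smul_zero, add_zero]
  have hhne : h (n e) = q11 • n e + q21 • n f := by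
    rw [← comm_app hnh, hhe]
    simp only [map_add, map_smul, hn, smul_zero, add_zero]
  have hhnf : h (n f) = q12 • n e + q22 • n f := by
    rw [← comm_app hnh, hhf]
    simp only [map_add, map_smul, hn, smul_zero, add_zero]
  have E1 := gh_app hgh e
  rw [hgne, hge, hhe] at E1
  simp only [map_add, map_smul, hge, hgf, hhe, hhf, hgne, hgnf, hhne, hhnf] at E1
  have E2 := gh_app hgh f
  rw [hgnf, hgf, hhf] at E2
  simp only [map_add, map_smul, hge, hgf, hhe, hhf, hgne, hgnf, hhne, hhnf] at E2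
  have F1 : (p11 * q11 + p12 * q21 - (q11 * p11 + q12 * p21)) • e +
      (p21 * q11 + p22 * q21 - (q21 * p11 + q22 * p21)) • f +
      ((p11 * q31 + p12 * q41 + (p31 * q11 + p32 * q21)) - ((q11 * p31 + q12 * p41) +
        (q31 * p11 + q32 * p21) + (q11 * p11 + q12 * p21))) • n e +
      ((p21 * q31 + p22 * q41 + (p41 * q11 + p42 * q21)) - ((q21 * p31 + q22 * p41) +
        (q41 * p11 + q42 * p21) + (q21 * p11 + q22 * p21))) • n f = 0 := by
    rw [← sub_eq_zero] at E1
    rw [← E1]
    module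
  have F2 : (p11 * q12 + p12 * q22 - (q11 * p12 + q12 * p22)) • e +
      (p21 * q12 + p22 * q22 - (q21 * p12 + q22 * p22)) • f +
      ((p11 * q32 + p12 * q42 + (p31 * q12 + p32 * q22)) - ((q11 * p32 + q12 * p42) +
        (q31 * p12 + q32 * p22) + (q11 * p12 + q12 * p22))) • n e +
      ((p21 * q32 + p22 * q42 + (p41 * q12 + p42 * q22)) - ((q21 * p32 + q22 * p42) +
        (q41 * p12 + q42 * p22) + (q21 * p12 + q22 * p22))) • n f = 0 := by
    rw [← sub_eq_zero] at E2
    rw [← E2]
    module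
  obtain ⟨a1, a2, a3, a4⟩ := hi _ _ _ _ F1
  obtain ⟨b1, b2, b3, b4⟩ := hi _ _ _ _ F2
  refine block (P := !![p11, p12; p21, p22]) (P' := !![p31, p32; p41, p42])
    (Q := !![q11, q12; q21, q22]) (Q' := !![q31, q32; q41, q42]) ?_ ?_ ?_ ?_
  · simp only [Matrix.mul_fin_two]
    rw [sub_eq_zero] at a1 a2 b1 b2
    rw [a1, a2, b1, b2]
  · simp only [Matrix.mul_fin_two]
    rw [sub_eq_zero] at a3 a4 b3 b4
    ext i j
    fin_cases i <;> fin_cases j
    · simpa using a3
    · simpa using b3
    · simpa using a4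
    · simpa using b4
  · refine det_ne_aux fun a b h1 h2 => hind a b (hg ?_)
    rw [map_zero, map_add, map_smul, map_smul, hgne, hgnf]
    have : a • (p11 • n e + p21 • n f) + b • (p12 • n e + p22 • n f) =
      (p11 * a + p12 * b) • n e + (p21 * a + p22 * b) • n f := by module
    rw [this, h1, h2, zero_smul, zero_smul, add_zero]
  · refine det_ne_aux fun a b h1 h2 => hind a b (hh ?_)
    rw [map_zero, map_add, map_smul, map_smul, hhne, hhnf]
    have : a • (q11 • n e + q21 • n f) + b • (q12 • n e + q22 • n f) =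
      (q11 * a + q12 * b) • n e + (q21 * a + q22 * b) • n f := by module
    rw [this, h1, h2, zero_smul, zero_smul, add_zero]

/-- In dimension 4, if a nilpotent `n` commutes with invertible `g`, `h` and `g h = h g (1 + n)` then
`n` has rank at most one. -/
theorem rank_le_one (hV : finrank ℂ V = 4) (hg : Function.Injective g) (hh : Function.Injective h)
    (hng : Commute n g) (hnh : Commute n h) (hgh : g * h = h * g * (1 + n)) (hn : n ^ 4 = 0) :
    ∃ (v : V) (φ : V → ℂ), ∀ u, n u = φ u • v := by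
  have h4 : ∀ v, n (n (n (n v))) = 0 := by
    intro v
    have := congrArg (fun k : End ℂ V => k v) hn
    simpa [pow_succ, Module.End.mul_apply] using this
  have h3 := case4 hV hg hh hng hnh hgh h4
  have h2 := case3 hV hg hh hng hnh hgh h3
  by_cases h0 : ∀ v, n v = 0
  · exact ⟨0, fun _ => 0, fun u => by rw [h0, smul_zero]⟩
  · push Not at h0
    obtain ⟨e, he⟩ := h0
    refine ⟨n e, ?_⟩
    have key : ∀ u, ∃ k : ℂ, n u = k • n e := by
      intro u
      have hc := case2 hV hg hh hng hnh hgh h2 e u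
      push Not at hc
      obtain ⟨a, b, hab, hne⟩ := hc
      have hb : b ≠ 0 := by
        intro hb
        subst hb
        rw [zero_smul, add_zero] at hab
        exact hne ((smul_eq_zero.1 hab).resolve_right he) rfl
      refine ⟨-(b⁻¹ * a), ?_⟩
      have h5 : b • n u = -(a • n e) := by rw [eq_neg_iff_add_eq_zero, add_comm]; exact hab
      have h6 : n u = b⁻¹ • (b • n u) := by rw [smul_smul, inv_mul_cancel₀ hb, one_smul]
      rw [h6, h5]
      module
    exact ⟨fun u => (key u).choose, fun u => (key u).choose_spec⟩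

end

end Pool.Agent.Helper92.AM
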