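import Pool.Agent.Helper92.AM.Alg
import Pool.Agent.Helper92.AM.Eig
import Pool.Agent.Helper92.AM.Rank
import Pool.Agent.Helper92.AM.Nil

/-!
The dichotomy for the trace of a word.
-/

open Matrix

namespace Pool.Agent.Helper92.AM

section

variable {α β : E →* Rˣ}

lemma units_mul_eq (f : E →* Rˣ) {a b c : E} (h : a * b = c) : (f a : R) * (f b : R) = (f c : R) := by
  rw [← h, map_mul]; rfl

lemma f_one (f : E →* Rˣ) {a : E} (h : a = 1) : (f a : R) = 1 := by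
  rw [h, map_one]; rfl

/-- the commutator of the word -/
lemma hαβ (h1 : α ⟨1, 0, 0, 0⟩ = β ⟨0, 0, 1, 0⟩) (m : ℤ) : α ⟨m, 0, 0, 0⟩ = β ⟨0, 0, m, 0⟩ := by
  rw [← E.zpow_u, ← E.zpow_w, map_zpow, map_zpow, h1]

lemma hαβ' (h2 : α ⟨0, 1, 0, 0⟩ = β ⟨0, 0, 0, 1⟩) (m : ℤ) : α ⟨0, m, 0, 0⟩ = β ⟨0, 0, 0, m⟩ := by
  rw [← E.zpow_v, ← E.zpow_k, map_zpow, map_zpow, h2]

/-- `c_2 ^ 24 - 1` is nilpotent -/
lemma nilp (h1 : α ⟨1, 0, 0, 0⟩ = β ⟨0, 0, 1, 0⟩) : ((α ⟨24, 0, 0, 0⟩ : R) - 1) ^ 4 = 0 := by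
  set L : R ≃ₐ[ℂ] Module.End ℂ (Fin 4 → ℂ) := Matrix.toLinAlgEquiv' with hL
  have u : ∀ a b : E, a * b = 1 → L (β a : R) * L (β b : R) = 1 := by
    intro a b hab
    rw [← map_mul, units_mul_eq β hab, map_one]
    exact map_one L
  have com : ∀ a b : E, a * b = b * a → Commute (L (β a : R)) (L (β b : R)) := by
    intro a b hab
    show L (β a : R) * L (β b : R) = L (β b : R) * L (β a : R)
    rw [← map_mul, ← map_mul, units_mul_eq β hab, units_mul_eq β rfl]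
  have key := pow_sub_one_nilp (V := Fin 4 → ℂ) (c := L (β ⟨0, 0, 1, 0⟩ : R))
    (g := L (β ⟨0, 0, 0, 1⟩ : R)) (g' := L (β ⟨0, 0, 0, -1⟩ : R))
    (h := L (β ⟨0, 1, 0, 0⟩ : R)) (h' := L (β ⟨0, -1, 0, 0⟩ : R)) (by simp)
    (u _ _ (by simp [E.mul_def, E.one_def])) (u _ _ (by simp [E.mul_def, E.one_def]))
    (u _ _ (by simp [E.mul_def, E.one_def])) (u _ _ (by simp [E.mul_def, E.one_def]))
    (com _ _ (by simp [E.mul_def])) (com _ _ (by simp [E.mul_def]))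
    (by
      rw [← map_pow, ← map_mul, ← map_mul, ← map_mul]
      congr 1
      have e1 : (β ⟨0, 0, 1, 0⟩ : R) ^ 2 = (β ⟨0, 0, 2, 0⟩ : R) := by
        rw [pow_two]; exact units_mul_eq β (by simp [E.mul_def])
      rw [e1, units_mul_eq β rfl, units_mul_eq β rfl, units_mul_eq β rfl]
      congr 2)
  apply L.injective
  rw [map_zero, map_pow, map_sub, map_one, hαβ h1]
  rw [← key]
  congr 2
  rw [← map_pow]
  congr 1
  rw [← Units.val_pow_eq_pow_val, ← map_pow]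
  congr 2

lemma rk0 (h1 : α ⟨1, 0, 0, 0⟩ = β ⟨0, 0, 1, 0⟩) : Rk ((α ⟨24, 0, 0, 0⟩ : R) - 1) := by
  set L : R ≃ₐ[ℂ] Module.End ℂ (Fin 4 → ℂ) := Matrix.toLinAlgEquiv' with hL
  set N0 : R := (α ⟨24, 0, 0, 0⟩ : R) - 1 with hN0
  have hp : (β ⟨0, 0, 24, 0⟩ : R) = 1 + N0 := by rw [hN0, hαβ h1]; abel
  have inj : ∀ a : E, Function.Injective (L (β a : R)) := by
    intro a
    have h : L (β a⁻¹ : R) * L (β a : R) = 1 := by
      rw [← map_mul, units_mul_eq β (inv_mul_cancel a), map_one]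
      exact map_one L
    intro v w hvw
    have e := congrArg (fun k : Module.End ℂ (Fin 4 → ℂ) => k v) h
    have e' := congrArg (fun k : Module.End ℂ (Fin 4 → ℂ) => k w) h
    simp only [Module.End.mul_apply, Module.End.one_apply] at e e'
    rw [← e, ← e', hvw]
  have com : ∀ a : E, a * ⟨0, 0, 24, 0⟩ = ⟨0, 0, 24, 0⟩ * a → Commute (L N0) (L (β a : R)) := by
    intro a ha
    show L N0 * L (β a : R) = L (β a : R) * L N0
    rw [← map_mul, ← map_mul]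
    congr 1
    have e : (β ⟨0, 0, 24, 0⟩ : R) * (β a : R) = (β a : R) * (β ⟨0, 0, 24, 0⟩ : R) := by
      rw [units_mul_eq β ha.symm, units_mul_eq β rfl]
    rw [hp, add_mul, mul_add, one_mul, mul_one] at e
    exact add_left_cancel e
  obtain ⟨v, φ, h⟩ := rank_le_one (n := L N0) (g := L (β ⟨0, 0, 0, 1⟩ : R))
    (h := L (β ⟨0, 12, 0, 0⟩ : R)) (by simp) (inj _) (inj _) (com _ (by simp [E.mul_def]))
    (com _ (by simp [E.mul_def]))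
    (by
      have : (1 + L N0) = L (β ⟨0, 0, 24, 0⟩ : R) := by rw [hp, map_add, map_one]
      rw [this, ← map_mul, ← map_mul, ← map_mul]
      congr 1
      rw [units_mul_eq β rfl, units_mul_eq β rfl, units_mul_eq β rfl]
      congr 2)
    (by rw [← map_pow, nilp h1, map_zero])
  refine ⟨v, fun j => φ (Pi.single j 1), ?_⟩
  ext i j
  have e := congrFun (h (Pi.single j 1)) i
  have e2 : (L N0 (Pi.single j 1)) i = N0 i j := by
    rw [hL, Matrix.toLinAlgEquiv'_apply]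
    simp
  rw [e2] at e
  rw [e, vecMulVec_apply]
  simp [mul_comm]

lemma exists_trace {N : R} (h : N ≠ 0) : ∃ A : R, (A * N).trace ≠ 0 := by
  by_contra hcon
  push Not at hcon
  apply h
  ext i j
  have := hcon (Matrix.single j i 1)
  rw [Matrix.trace_mul_comm] at this
  simpa [Matrix.trace_mul_single] using this

/-- the trace of the word is `4` or `580` -/
theorem dichotomy (h1 : α ⟨1, 0, 0, 0⟩ = β ⟨0, 0, 1, 0⟩) (h2 : α ⟨0, 1, 0, 0⟩ = β ⟨0, 0, 0, 1⟩) :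
    trace ((α ⟨24, 24, 24, 0⟩ * β ⟨1, 0, 0, 0⟩ * (α ⟨24, 24, 24, 0⟩)⁻¹ * (β ⟨1, 0, 0, 0⟩)⁻¹ : Rˣ) : R) = 4
    ∨ trace ((α ⟨24, 24, 24, 0⟩ * β ⟨1, 0, 0, 0⟩ * (α ⟨24, 24, 24, 0⟩)⁻¹ * (β ⟨1, 0, 0, 0⟩)⁻¹ : Rˣ) : R)
      = 580 := by
  let N : ℤ → R := fun k => (α ⟨24, 24 * k, 24 * k ^ 2, 0⟩ : R) - 1
  have hN : ∀ k : ℤ, (α ⟨24, 24 * k, 24 * k ^ 2, 0⟩ : R) = 1 + N k := fun k => by
    show _ = 1 + ((α ⟨24, 24 * k, 24 * k ^ 2, 0⟩ : R) - 1)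
    abel
  have hN0 : N 0 = (α ⟨24, 0, 0, 0⟩ : R) - 1 := rfl
  have hk : ∀ k : ℤ, N k = (α ⟨0, 0, 0, k⟩ : R) * N 0 * (α ⟨0, 0, 0, -k⟩ : R) := by
    intro k
    rw [hN0, mul_sub, sub_mul, mul_one, units_mul_eq α rfl, units_mul_eq α rfl,
      units_mul_eq α (c := 1) (by simp [E.mul_def, E.one_def]), map_one]
    show (α ⟨24, 24 * k, 24 * k ^ 2, 0⟩ : R) - 1 = _
    congr 3
    simp only [E.mul_def]
    ext <;> simp only [] <;> ring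
  have hR : ∀ k, Rk (N k) := fun k => by rw [hk k]; exact (rk0 h1).conj _ _
  have hcm : ∀ i j, N i * N j = N j * N i := by
    intro i j
    have e : (α ⟨24, 24 * i, 24 * i ^ 2, 0⟩ : R) * (α ⟨24, 24 * j, 24 * j ^ 2, 0⟩ : R) =
        (α ⟨24, 24 * j, 24 * j ^ 2, 0⟩ : R) * (α ⟨24, 24 * i, 24 * i ^ 2, 0⟩ : R) := by
      rw [units_mul_eq α rfl, units_mul_eq α rfl]
      congr 2
      simp only [E.mul_def]
      ext <;> simp only [] <;> ring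
    rw [hN, hN] at e
    simp only [mul_add, add_mul, one_mul, mul_one] at e
    have e' : 1 + N i + N j + N i * N j = 1 + N i + N j + N j * N i := by
      calc 1 + N i + N j + N i * N j = 1 + N i + (N j + N i * N j) := by abel
        _ = 1 + N j + (N i + N j * N i) := e
        _ = 1 + N i + N j + N j * N i := by abel
    exact add_left_cancel e'
  by_cases h0 : N 0 = 0
  · left
    have h3 : N 1 = 0 := by rw [hk 1, h0, mul_zero, zero_mul]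
    have h4 : α ⟨24, 24, 24, 0⟩ = 1 := by
      apply Units.ext
      have := hN 1
      rw [h3, add_zero] at this
      exact this
    rw [h4, one_mul, inv_one, mul_one, mul_inv_cancel]
    simp
  right
  have hsq0 : N 0 * N 0 = 0 := by
    have s := (hR 0).sandwich 1
    rw [mul_one, one_mul] at s
    have h4 : (N 0) ^ 4 = 0 := nilp h1
    have h5 : (N 0) ^ 4 = (N 0).trace ^ 3 • N 0 := by
      calc (N 0) ^ 4 = (N 0 * N 0) * (N 0 * N 0) := by noncomm_ring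
        _ = (N 0).trace ^ 3 • N 0 := by
          rw [s, smul_mul_assoc, mul_smul_comm, s]
          module
    rw [h5] at h4
    have h6 := (smul_eq_zero.1 h4).resolve_right h0
    have h7 : (N 0).trace = 0 := by simpa using h6
    rw [s, h7, zero_smul]
  have hinv : ∀ k : ℤ, (α ⟨0, 0, 0, -k⟩ : R) * (α ⟨0, 0, 0, k⟩ : R) = 1 := fun k => by
    rw [units_mul_eq α (c := 1) (by simp [E.mul_def, E.one_def]), map_one]; rfl
  have hsq : ∀ k, N k * N k = 0 := by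
    intro k
    rw [hk k]
    calc (α ⟨0, 0, 0, k⟩ : R) * N 0 * (α ⟨0, 0, 0, -k⟩ : R) *
          ((α ⟨0, 0, 0, k⟩ : R) * N 0 * (α ⟨0, 0, 0, -k⟩ : R)) =
        (α ⟨0, 0, 0, k⟩ : R) * N 0 * ((α ⟨0, 0, 0, -k⟩ : R) * (α ⟨0, 0, 0, k⟩ : R)) * N 0 *
          (α ⟨0, 0, 0, -k⟩ : R) := by noncomm_ring
      _ = 0 := by rw [hinv, mul_one, mul_assoc (α ⟨0, 0, 0, k⟩ : R) (N 0) (N 0), hsq0, mul_zero,
          zero_mul]
  have hz : ∀ i j, N i * N j = 0 := fun i j => (hR i).comm_zero (hR j) (hsq i) (hcm i j)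
  have hpow : ∀ (k : ℤ) (m : ℕ), (1 + N k) ^ m = 1 + (m : ℂ) • N k := fun k m => one_add_pow (hsq k) m
  have S1 : N 2 + (3 : ℂ) • N 0 = (3 : ℂ) • N 1 + N (-1) := by
    have e : (α ⟨24, 24 * 2, 24 * 2 ^ 2, 0⟩ : R) * (α ⟨24, 24 * 0, 24 * 0 ^ 2, 0⟩ : R) ^ 3 =
        (α ⟨24, 24 * 1, 24 * 1 ^ 2, 0⟩ : R) ^ 3 * (α ⟨24, 24 * (-1), 24 * (-1) ^ 2, 0⟩ : R) := by
      rw [← Units.val_pow_eq_pow_val, ← Units.val_pow_eq_pow_val, ← map_pow, ← map_pow,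
        units_mul_eq α rfl, units_mul_eq α rfl]
      congr 2
    rw [hN 2, hN 0, hN 1, hN (-1), hpow, hpow] at e
    simp only [mul_add, add_mul, one_mul, mul_one, mul_smul_comm, smul_mul_assoc, hz,
      smul_zero, add_zero, Nat.cast_ofNat] at e
    rw [add_assoc, add_assoc] at e
    exact add_left_cancel e
  have S2 : N (-2) + (3 : ℂ) • N 0 = (3 : ℂ) • N (-1) + N 1 := by
    have e : (α ⟨24, 24 * (-2), 24 * (-2) ^ 2, 0⟩ : R) * (α ⟨24, 24 * 0, 24 * 0 ^ 2, 0⟩ : R) ^ 3 =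
        (α ⟨24, 24 * (-1), 24 * (-1) ^ 2, 0⟩ : R) ^ 3 * (α ⟨24, 24 * 1, 24 * 1 ^ 2, 0⟩ : R) := by
      rw [← Units.val_pow_eq_pow_val, ← Units.val_pow_eq_pow_val, ← map_pow, ← map_pow,
        units_mul_eq α rfl, units_mul_eq α rfl]
      congr 2
    rw [hN (-2), hN 0, hN 1, hN (-1), hpow, hpow] at e
    simp only [mul_add, add_mul, one_mul, mul_one, mul_smul_comm, smul_mul_assoc, hz,
      smul_zero, add_zero, Nat.cast_ofNat] at e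
    rw [add_assoc, add_assoc] at e
    exact add_left_cancel e
  -- the element `g = c_1 ^ 48`
  set G : R := N 1 - N (-1) with hG
  have hg : (α ⟨0, 48, 0, 0⟩ : R) = 1 + G := by
    have e : (α ⟨0, 48, 0, 0⟩ : R) * (α ⟨24, 24 * (-1), 24 * (-1) ^ 2, 0⟩ : R) =
        (α ⟨24, 24 * 1, 24 * 1 ^ 2, 0⟩ : R) := units_mul_eq α rfl
    rw [hN 1, hN (-1)] at e
    have e2 : (1 + N (-1)) * (1 - N (-1)) = 1 := by
      simp only [mul_sub, add_mul, one_mul, mul_one, hz]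
      module
    calc (α ⟨0, 48, 0, 0⟩ : R) = (α ⟨0, 48, 0, 0⟩ : R) * ((1 + N (-1)) * (1 - N (-1))) := by
          rw [e2, mul_one]
      _ = (1 + N 1) * (1 - N (-1)) := by rw [← mul_assoc, e]
      _ = 1 + G := by
          simp only [mul_sub, add_mul, one_mul, mul_one, hz, hG]
          module
  set P : R := (1 / 2 : ℂ) • G with hP
  set Q : R := (1 / 2 : ℂ) • (N 1 + N (-1) - (2 : ℂ) • N 0) with hQ
  have hG2 : G = (2 : ℂ) • P := by rw [hP]; module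
  have fam : ∀ c : ℂ, c = 0 ∨ c = 1 ∨ c = -1 ∨ c = 2 ∨ c = -2 → ∃ k : ℤ, N 0 + c • P + c ^ 2 • Q = N k := by
    intro c hc
    rcases hc with rfl | rfl | rfl | rfl | rfl
    · exact ⟨0, by module⟩
    · exact ⟨1, by rw [hP, hQ, hG]; module⟩
    · exact ⟨-1, by rw [hP, hQ, hG]; module⟩
    · refine ⟨2, ?_⟩
      rw [hP, hQ, hG]
      linear_combination (norm := module) -(1 : ℂ) • S1
    · refine ⟨-2, ?_⟩
      rw [hP, hQ, hG]
      linear_combination (norm := module) -(1 : ℂ) • S2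
  have z0 : N 0 * P = 0 ∧ P * N 0 = 0 ∧ N 0 * Q = 0 ∧ Q * N 0 = 0 ∧ N 0 * G = 0 ∧ G * N 0 = 0 ∧
      G * G = 0 := by
    refine ⟨?_, ?_, ?_, ?_, ?_, ?_, ?_⟩ <;>
    simp only [hP, hQ, hG, mul_sub, sub_mul, mul_add, add_mul, mul_smul_comm, smul_mul_assoc, hz,
      smul_zero, sub_zero, add_zero]
  obtain ⟨z1, z2, z3, z4, z5, z6, z7⟩ := z0
  -- the element `y`
  have hp : (β ⟨0, 0, 24, 0⟩ : R) = 1 + N 0 := by rw [hN0, hαβ h1]; abel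
  have qd : ∀ e : E, e * ⟨0, 0, 24, 0⟩ = ⟨0, 0, 24, 0⟩ * e → N 0 * (β e : R) = (β e : R) * N 0 := by
    intro a ha
    have e : (β ⟨0, 0, 24, 0⟩ : R) * (β a : R) = (β a : R) * (β ⟨0, 0, 24, 0⟩ : R) := by
      rw [units_mul_eq β ha.symm, units_mul_eq β rfl]
    rw [hp, add_mul, mul_add, one_mul, mul_one] at e
    exact add_left_cancel e
  have cy : N 0 * (β ⟨1, 0, 0, 0⟩ : R) = (β ⟨1, 0, 0, 0⟩ : R) * N 0 := qd _ (by simp [E.mul_def])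
  have cy' : N 0 * (β ⟨-1, 0, 0, 0⟩ : R) = (β ⟨-1, 0, 0, 0⟩ : R) * N 0 :=
    qd _ (by simp [E.mul_def])
  obtain ⟨ty0, ty1, ty2⟩ := quad h0 cy hsq0 z1 z2 z3 z4 (fun c hc => by
    obtain ⟨k, hk'⟩ := fam c hc
    rw [hk']
    exact (hR k).sandwich _)
  obtain ⟨ty0', ty1', ty2'⟩ := quad h0 cy' hsq0 z1 z2 z3 z4 (fun c hc => by
    obtain ⟨k, hk'⟩ := fam c hc
    rw [hk']
    exact (hR k).sandwich _)
  set a : ℂ := ((β ⟨1, 0, 0, 0⟩ : R) * Q).trace with ha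
  set b : ℂ := ((β ⟨-1, 0, 0, 0⟩ : R) * Q).trace with hb
  have hy : (β ⟨1, 0, 0, 0⟩ : R) * (β ⟨-1, 0, 0, 0⟩ : R) = 1 := by
    rw [units_mul_eq β (c := 1) (by simp [E.mul_def, E.one_def]), map_one]; rfl
  have hy' : (β ⟨-1, 0, 0, 0⟩ : R) * (β ⟨1, 0, 0, 0⟩ : R) = 1 := by
    rw [units_mul_eq β (c := 1) (by simp [E.mul_def, E.one_def]), map_one]; rfl
  obtain ⟨μ, hμ⟩ : ∃ μ : ℂ, N 0 * (β ⟨1, 0, 0, 0⟩ : R) = μ • N 0 := by
    obtain ⟨A, hA⟩ := exists_trace h0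
    refine ⟨((A * N 0).trace)⁻¹ * ((A * (β ⟨1, 0, 0, 0⟩ : R)) * N 0).trace, ?_⟩
    have s1 := (hR 0).sandwich A
    have s2 := (hR 0).sandwich (A * (β ⟨1, 0, 0, 0⟩ : R))
    have s3 : N 0 * (A * (β ⟨1, 0, 0, 0⟩ : R)) * N 0 =
        (A * N 0).trace • (N 0 * (β ⟨1, 0, 0, 0⟩ : R)) := by
      rw [← smul_mul_assoc, ← s1]
      simp only [mul_assoc]
      rw [cy]
    rw [s2] at s3
    rw [mul_smul, s3, smul_smul, inv_mul_cancel₀ hA, one_smul]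
  have hgβ : (β ⟨0, 0, 0, 48⟩ : R) = 1 + G := by rw [← hg, hαβ' h2]
  have p96 : (β ⟨0, 0, 2304, 0⟩ : R) = 1 + (96 : ℂ) • N 0 := by
    have e : (β ⟨0, 0, 2304, 0⟩ : R) = (β ⟨0, 0, 24, 0⟩ : R) ^ 96 := by
      have h3 := E.zpow_w 24
      have h4 := E.zpow_w 2304
      have h5 : (⟨0, 0, 2304, 0⟩ : E) = ⟨0, 0, 24, 0⟩ ^ 96 := by
        rw [← h3, ← h4, ← zpow_natCast, ← _root_.zpow_mul]
        norm_num
      rw [h5, map_pow, Units.val_pow_eq_pow_val]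
    rw [e, hp, hpow]
    norm_num
  have p192 : (β ⟨0, 0, 4608, 0⟩ : R) = 1 + (192 : ℂ) • N 0 := by
    have e : (β ⟨0, 0, 4608, 0⟩ : R) = (β ⟨0, 0, 24, 0⟩ : R) ^ 192 := by
      have h3 := E.zpow_w 24
      have h4 := E.zpow_w 4608
      have h5 : (⟨0, 0, 4608, 0⟩ : E) = ⟨0, 0, 24, 0⟩ ^ 192 := by
        rw [← h3, ← h4, ← zpow_natCast, ← _root_.zpow_mul]
        norm_num
      rw [h5, map_pow, Units.val_pow_eq_pow_val]
    rw [e, hp, hpow]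
    norm_num
  have main := core (N0 := N 0) (G := G) (y := (β ⟨1, 0, 0, 0⟩ : R)) (y' := (β ⟨-1, 0, 0, 0⟩ : R))
    (D := (β ⟨0, 48, 0, 0⟩ : R)) (a := 4 * a) (b := 4 * b) (μ := μ) h0 hy hy' cy hμ hsq0 z7 z5 z6
    (by rw [hG2, smul_mul_assoc, mul_smul_comm, smul_mul_assoc, ty2]; module)
    (by rw [hG2, smul_mul_assoc, mul_smul_comm, smul_mul_assoc, ty2']; module)
    (by
      rw [← hgβ, ← p96]
      simp only [units_mul_eq β rfl]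
      congr 2)
    (by
      simp only [units_mul_eq β rfl]
      congr 2)
    (by
      rw [← hgβ, ← p192]
      simp only [units_mul_eq β rfl]
      congr 2)
  -- the trace
  have v1 : (α ⟨24, 24, 24, 0⟩ : R) = 1 + N 1 := hN 1
  have v2 : ((α ⟨24, 24, 24, 0⟩)⁻¹ : Rˣ).val = 1 - N 1 := by
    have : (α ⟨24, 24, 24, 0⟩ : R) * (1 - N 1) = 1 := by
      rw [v1]
      simp only [mul_sub, add_mul, one_mul, mul_one, hz]
      module
    calc ((α ⟨24, 24, 24, 0⟩)⁻¹ : Rˣ).val = ((α ⟨24, 24, 24, 0⟩)⁻¹ : Rˣ).val *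
          ((α ⟨24, 24, 24, 0⟩ : R) * (1 - N 1)) := by rw [this, mul_one]
      _ = 1 - N 1 := by rw [← mul_assoc, Units.inv_mul, one_mul]
  have v3 : ((β ⟨1, 0, 0, 0⟩)⁻¹ : Rˣ).val = (β ⟨-1, 0, 0, 0⟩ : R) := by
    calc ((β ⟨1, 0, 0, 0⟩)⁻¹ : Rˣ).val = ((β ⟨1, 0, 0, 0⟩)⁻¹ : Rˣ).val *
          ((β ⟨1, 0, 0, 0⟩ : R) * (β ⟨-1, 0, 0, 0⟩ : R)) := by rw [hy, mul_one]
      _ = (β ⟨-1, 0, 0, 0⟩ : R) := by rw [← mul_assoc, Units.inv_mul, one_mul]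
  have n1 : N 1 = N 0 + P + Q := by rw [hP, hQ, hG]; module
  have t1 : (N 1).trace = 0 := by
    have s := (hR 1).sandwich 1
    rw [mul_one, one_mul, hz] at s
    refine (smul_eq_zero.1 s.symm).resolve_right fun h => h0 ?_
    have e := hk 1
    rw [h] at e
    have e2 : (α ⟨0, 0, 0, -1⟩ : R) * ((α ⟨0, 0, 0, 1⟩ : R) * N 0 * (α ⟨0, 0, 0, -1⟩ : R)) *
        (α ⟨0, 0, 0, 1⟩ : R) = N 0 := by
      calc (α ⟨0, 0, 0, -1⟩ : R) * ((α ⟨0, 0, 0, 1⟩ : R) * N 0 * (α ⟨0, 0, 0, -1⟩ : R)) *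
          (α ⟨0, 0, 0, 1⟩ : R) = ((α ⟨0, 0, 0, -1⟩ : R) * (α ⟨0, 0, 0, 1⟩ : R)) * N 0 *
          ((α ⟨0, 0, 0, -1⟩ : R) * (α ⟨0, 0, 0, 1⟩ : R)) := by noncomm_ring
        _ = N 0 := by rw [hinv 1, one_mul, mul_one]
    rw [← e, mul_zero, zero_mul] at e2
    exact e2.symm
  have t2 : ((β ⟨1, 0, 0, 0⟩ : R) * N 1).trace = a := by
    rw [n1, mul_add, mul_add, trace_add, trace_add, ty0, ty1, zero_add, zero_add]
  have t3 : (N 1 * (β ⟨-1, 0, 0, 0⟩ : R)).trace = b := by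
    rw [trace_mul_comm, n1, mul_add, mul_add, trace_add, trace_add, ty0', ty1', zero_add, zero_add]
  have t4 : ((β ⟨1, 0, 0, 0⟩ : R) * N 1 * (β ⟨-1, 0, 0, 0⟩ : R)).trace = 0 := by
    rw [trace_mul_comm, ← mul_assoc, hy', one_mul, t1]
  have t5 : (N 1 * (β ⟨1, 0, 0, 0⟩ : R) * N 1 * (β ⟨-1, 0, 0, 0⟩ : R)).trace = a * b := by
    rw [(hR 1).sandwich, smul_mul_assoc, trace_smul, t2, t3, smul_eq_mul]
  have ex : ((α ⟨24, 24, 24, 0⟩ * β ⟨1, 0, 0, 0⟩ * (α ⟨24, 24, 24, 0⟩)⁻¹ * (β ⟨1, 0, 0, 0⟩)⁻¹ : Rˣ) : R)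
      = 1 + N 1 - (β ⟨1, 0, 0, 0⟩ : R) * N 1 * (β ⟨-1, 0, 0, 0⟩ : R) -
        N 1 * (β ⟨1, 0, 0, 0⟩ : R) * N 1 * (β ⟨-1, 0, 0, 0⟩ : R) := by
    rw [Units.val_mul, Units.val_mul, Units.val_mul, v1, v2, v3]
    calc (1 + N 1) * (β ⟨1, 0, 0, 0⟩ : R) * (1 - N 1) * (β ⟨-1, 0, 0, 0⟩ : R) =
        (β ⟨1, 0, 0, 0⟩ : R) * (β ⟨-1, 0, 0, 0⟩ : R) + N 1 * ((β ⟨1, 0, 0, 0⟩ : R) *
          (β ⟨-1, 0, 0, 0⟩ : R)) - (β ⟨1, 0, 0, 0⟩ : R) * N 1 * (β ⟨-1, 0, 0, 0⟩ : R) -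
        N 1 * (β ⟨1, 0, 0, 0⟩ : R) * N 1 * (β ⟨-1, 0, 0, 0⟩ : R) := by noncomm_ring
      _ = _ := by rw [hy, mul_one]
  rw [ex, trace_sub, trace_sub, trace_add, t1, t4, t5, trace_one, Fintype.card_fin]
  push_cast
  linear_combination -(1 / 16 : ℂ) * main

end

end Pool.Agent.Helper92.AM
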