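import Pool.Agent.Helper92.FL.Final

/-!
The topological part: closed orbits, and an obstruction to strong deformation retractions.
-/

open Matrix NormedSpace Filter Topology
open scoped ComplexConjugate ComplexOrder

namespace Pool.Agent.Helper92.AM

open Pool.Agent.Helper92.FL

/-- the unitary group, as a subgroup of `GL_n(ℂ)` -/
def U (n : ℕ) : Subgroup (GL (Fin n) ℂ) where
  carrier := {g | g.1 * g.1ᴴ = 1}
  mul_mem' := by
    intro a b ha hb
    exact Uni.mul (U := a.1) (W := b.1) ha hb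
  one_mem' := Uni.one
  inv_mem' := by
    intro a ha
    show Uni (a⁻¹).1
    rw [← gl_inv, Uni.inv (U := a.1) ha]
    exact Uni.star ha

lemma mem_U {n : ℕ} {g : GL (Fin n) ℂ} : g ∈ U n ↔ Uni g.1 := Iff.rfl

lemma image_U (n : ℕ) : Units.val '' (U n : Set (GL (Fin n) ℂ)) = (glGrp n).K := by
  ext A
  constructor
  · rintro ⟨g, hg, rfl⟩
    exact ⟨(Matrix.isUnit_iff_isUnit_det _).1 g.isUnit, hg⟩
  · rintro ⟨hA, hA'⟩
    obtain ⟨g, rfl⟩ := (Matrix.isUnit_iff_isUnit_det _).2 hA
    exact ⟨g, hA', rfl⟩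

lemma isCompact_U (n : ℕ) : IsCompact (U n : Set (GL (Fin n) ℂ)) := by
  rw [val_embedding.isCompact_iff, image_U]
  exact Grp.K_compact

/-- a unit which is a diagonal matrix -/
lemma exp_le_zero {x C : ℝ} (h : ∀ m : ℕ, Real.exp (m * x) ≤ C) : x ≤ 0 := by
  by_contra hx
  push Not at hx
  obtain ⟨m, hm⟩ := exists_nat_gt (C / x)
  have h1 := h m
  have h2 := Real.add_one_le_exp (m * x)
  rw [div_lt_iff₀ hx] at hm
  linarith

/-- the unitary group is a maximal compact subgroup -/
theorem isMaxCompact_U (n : ℕ) : IsMaxCompact (U n) where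
  compact := isCompact_U n
  maximal := by
    intro K' hK' hle
    refine le_antisymm ?_ hle
    intro g hg
    have hgS : g.1 ∈ (glGrp n).S := (Matrix.isUnit_iff_isUnit_det _).1 g.isUnit
    obtain ⟨k, hk, X, hX, hgX⟩ := Grp.polar hgS
    obtain ⟨V, x, hV, hVX⟩ := diag_rep hX.1
    obtain ⟨k', rfl⟩ := hk.2.isUnit
    obtain ⟨V', rfl⟩ := hV.isUnit
    -- the diagonal element
    have hd : V'⁻¹ * (k'⁻¹ * g) * V' ∈ K' := by
      refine mul_mem (mul_mem ?_ (mul_mem ?_ hg)) ?_
      · exact inv_mem (hle hV)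
      · exact inv_mem (hle hk.2)
      · exact hle hV
    set δ := V'⁻¹ * (k'⁻¹ * g) * V' with hδ
    have hδv : δ.1 = exp (dg x) := by
      have h1 : (k'⁻¹).1 * g.1 = exp X := by
        rw [hgX, ← Matrix.mul_assoc, gl_inv_mul, Matrix.one_mul]
      have h2 : exp X = V'.1 * exp (dg x) * (V'⁻¹).1 := by
        rw [hVX, ← Uni.inv (U := V'.1) hV, ← gl_inv]
        exact Matrix.exp_conj _ _ V'.isUnit
      rw [hδ, Units.val_mul, Units.val_mul, Units.val_mul, h1, h2]
      calc (V'⁻¹).1 * (V'.1 * exp (dg x) * (V'⁻¹).1) * V'.1 =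
          ((V'⁻¹).1 * V'.1) * exp (dg x) * ((V'⁻¹).1 * V'.1) := by simp only [Matrix.mul_assoc]
        _ = exp (dg x) := by rw [gl_inv_mul, Matrix.one_mul, Matrix.mul_one]
    have hδd : δ.1 = diagonal (fun i => Complex.exp (x i)) := by
      rw [hδv, dg, Matrix.exp_diagonal]
      congr 1
      funext i
      rw [Pi.coe_exp, Complex.exp_eq_exp_ℂ]
    have hpow : ∀ m : ℕ, (δ ^ m).1 = diagonal (fun i => Complex.exp (m * x i)) := by
      intro m
      rw [Units.val_pow_eq_pow_val, hδd, Matrix.diagonal_pow]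
      congr 1
      funext i
      rw [Pi.pow_apply, ← Complex.exp_nat_mul]
    have hpow' : ∀ m : ℕ, ((δ⁻¹) ^ m).1 = diagonal (fun i => Complex.exp (m * -x i)) := by
      intro m
      have h1 : (δ ^ m).1 * diagonal (fun i => Complex.exp (m * -x i)) = 1 := by
        rw [hpow, Matrix.diagonal_mul_diagonal, ← Matrix.diagonal_one]
        congr 1
        funext i
        rw [← Complex.exp_add]
        simp
      rw [inv_pow, ← gl_inv]
      exact inv_eq_right_inv h1
    have hbd : ∀ i, ∃ C, ∀ h ∈ K', ‖h.1 i i‖ ≤ C := by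
      intro i
      have hc : Continuous fun h : GL (Fin n) ℂ => h.1 i i :=
        Continuous.matrix_elem Units.continuous_val i i
      exact hK'.exists_bound_of_continuousOn hc.continuousOn
    have hx0 : ∀ i, x i = 0 := by
      intro i
      obtain ⟨C, hC⟩ := hbd i
      apply le_antisymm
      · apply exp_le_zero (C := C)
        intro m
        have := hC _ (pow_mem hd m)
        rw [hpow, diagonal_apply_eq, Complex.norm_exp] at this
        simpa using this
      · have h0 : -x i ≤ 0 := by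
          apply exp_le_zero (C := C)
          intro m
          have := hC _ (pow_mem (inv_mem hd) m)
          rw [hpow', diagonal_apply_eq, Complex.norm_exp] at this
          simpa using this
        linarith
    have hX0 : exp X = 1 := by
      have : dg x = 0 := by
        unfold dg
        rw [← Matrix.diagonal_zero]
        congr 1
        funext i
        rw [hx0 i]
        simp
      rw [hVX, this, Matrix.mul_zero, Matrix.zero_mul, exp_zero]
    rw [mem_U, hgX, hX0, Matrix.mul_one]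
    exact hk.2

section

variable {n q : ℕ} {Γ : Type} [Group Γ] {s : Fin q → Γ}

/-- the tuple of a homomorphism -/
def T' (φ : Rep s (GL (Fin n) ℂ)) : Fin q → M n := fun i => (φ.hom (s i)).1

lemma T'_mem (φ : Rep s (GL (Fin n) ℂ)) (i : Fin q) : T' φ i ∈ (glGrp n).S :=
  (Matrix.isUnit_iff_isUnit_det _).1 (φ.hom (s i)).isUnit

lemma T'_smul (g : GL (Fin n) ℂ) (φ : Rep s (GL (Fin n) ℂ)) : T' (g • φ) = act g.1 (T' φ) := by
  funext i
  show (g * φ.hom (s i) * g⁻¹ : GL (Fin n) ℂ).1 = g.1 * (φ.hom (s i)).1 * (g.1)⁻¹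
  rw [Units.val_mul, Units.val_mul, gl_inv]

lemma T'_inj (hs : Subgroup.closure (Set.range s) = ⊤) :
    Function.Injective (T' : Rep s (GL (Fin n) ℂ) → Fin q → M n) := by
  intro φ ψ h
  apply Rep.ext
  apply MonoidHom.eq_of_eqOn_dense hs
  rintro _ ⟨i, rfl⟩
  exact Units.ext (congrFun h i)

lemma T'_continuous : Continuous (T' : Rep s (GL (Fin n) ℂ) → Fin q → M n) := by
  refine continuous_pi fun i => ?_
  refine Units.continuous_val.comp ?_
  have h1 : Continuous fun (φ : Rep s (GL (Fin n) ℂ)) (i : Fin q) => φ.hom (s i) :=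
    continuous_induced_dom
  exact (continuous_apply i).comp h1

/-- the orbit of a minimal homomorphism is closed -/
theorem closed_of_KN (hs : Subgroup.closure (Set.range s) = ⊤) {φ : Rep s (GL (Fin n) ℂ)}
    (h : (glGrp n).KN (T' φ)) : IsClosed (MulAction.orbit (GL (Fin n) ℂ) φ) := by
  have hc : IsClosed (orb (glGrp n) (T' φ)) := by
    rw [← closure_eq_iff_isClosed]
    exact Set.Subset.antisymm (closed_orbit h) subset_closure
  have h1 : MulAction.orbit (GL (Fin n) ℂ) φ = T' ⁻¹' (orb (glGrp n) (T' φ)) := by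
    ext ψ
    constructor
    · rintro ⟨g, rfl⟩
      exact ⟨g.1, (Matrix.isUnit_iff_isUnit_det _).1 g.isUnit, T'_smul g φ⟩
    · rintro ⟨g, hg, hψ⟩
      obtain ⟨g', rfl⟩ := (Matrix.isUnit_iff_isUnit_det _).2 hg
      rw [← T'_smul] at hψ
      exact ⟨g', (T'_inj hs hψ).symm⟩
  rw [h1]
  exact hc.preimage T'_continuous

/-- unitary homomorphisms have closed orbits -/
theorem closed_unitary (hs : Subgroup.closure (Set.range s) = ⊤) (ψ : Rep s (U n)) :
    IsClosed (MulAction.orbit (GL (Fin n) ℂ) (incl s (U n) ψ)) :=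
  closed_of_KN hs (KN_uni (fun i => T'_mem _ i) (fun i => (ψ.hom (s i)).2))

/-- limits of homomorphisms -/
lemma exists_limit_hom {G : Type} [Group G] [TopologicalSpace G] [IsTopologicalGroup G] [T2Space G]
    (hs : Subgroup.closure (Set.range s) = ⊤) (f : ℕ → Γ →* G)
    (h : ∀ i, ∃ l, Tendsto (fun j => f j (s i)) atTop (𝓝 l)) :
    ∃ φ : Γ →* G, ∀ γ, Tendsto (fun j => f j γ) atTop (𝓝 (φ γ)) := by
  have h1 : ∀ γ, ∃ l, Tendsto (fun j => f j γ) atTop (𝓝 l) := by
    intro γ
    have hγ : γ ∈ Subgroup.closure (Set.range s) := by rw [hs]; trivial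
    induction hγ using Subgroup.closure_induction with
    | mem x hx => obtain ⟨i, rfl⟩ := hx; exact h i
    | one => exact ⟨1, by simp⟩
    | mul x y _ _ hx hy =>
      obtain ⟨l, hl⟩ := hx
      obtain ⟨l', hl'⟩ := hy
      exact ⟨l * l', by simpa using hl.mul hl'⟩
    | inv x _ hx =>
      obtain ⟨l, hl⟩ := hx
      exact ⟨l⁻¹, by simpa using hl.inv⟩
  choose l hl using h1
  refine ⟨MonoidHom.mk' l fun a b => ?_, hl⟩
  refine tendsto_nhds_unique (hl (a * b)) ?_
  simpa using (hl a).mul (hl b)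

/-- every orbit closure contains a closed orbit -/
theorem exists_closed_orbit (hs : Subgroup.closure (Set.range s) = ⊤) (φ : Rep s (GL (Fin n) ℂ)) :
    ∃ φ' : Rep s (GL (Fin n) ℂ), IsClosed (MulAction.orbit (GL (Fin n) ℂ) φ') ∧
      φ' ∈ closure (MulAction.orbit (GL (Fin n) ℂ) φ) := by
  obtain ⟨b, hb, hb'⟩ := exists_min (G := glGrp n) (a := T' φ) (T'_mem φ)
  have hbS := clo_mem (T'_mem φ) hb'
  obtain ⟨v, hv, hvb⟩ := exists_seq hb'
  have hv' : ∀ j, ∃ g : GL (Fin n) ℂ, v j = T' (g • φ) := by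
    intro j
    obtain ⟨g, hg, hvj⟩ := hv j
    obtain ⟨g', rfl⟩ := (Matrix.isUnit_iff_isUnit_det _).2 hg
    exact ⟨g', by rw [hvj, T'_smul]⟩
  choose g hg using hv'
  have h1 : ∀ i, ∃ B : GL (Fin n) ℂ, B.1 = b i := fun i =>
    (Matrix.isUnit_iff_isUnit_det _).2 (hbS i)
  choose B hB using h1
  have h2 : ∀ i, Tendsto (fun j => (g j • φ).hom (s i)) atTop (𝓝 (B i)) := by
    intro i
    rw [val_embedding.tendsto_nhds_iff, hB]
    have h3 := (tendsto_pi_nhds.1 hvb) i
    refine h3.congr fun j => ?_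
    rw [hg j]
    rfl
  obtain ⟨χ, hχ⟩ := exists_limit_hom hs (fun j => (g j • φ).hom) (fun i => ⟨B i, h2 i⟩)
  have h4 : T' (⟨χ⟩ : Rep s (GL (Fin n) ℂ)) = b := by
    funext i
    show (χ (s i)).1 = b i
    rw [← hB i, tendsto_nhds_unique (hχ (s i)) (h2 i)]
  refine ⟨⟨χ⟩, closed_of_KN hs (by rw [h4]; exact hb), ?_⟩
  refine mem_closure_of_tendsto (f := fun j => g j • φ) (b := atTop) ?_
    (Eventually.of_forall fun j => ⟨g j, rfl⟩)
  rw [rep_tendsto_iff]
  intro i
  exact hχ (s i)

/-- the trace of the value at `w` -/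
noncomputable def tr (w : Γ) (φ : Rep s (GL (Fin n) ℂ)) : ℂ := trace (φ.hom w).1

lemma tr_continuous (hs : Subgroup.closure (Set.range s) = ⊤) (w : Γ) :
    Continuous (tr w : Rep s (GL (Fin n) ℂ) → ℂ) := by
  rw [continuous_iff_continuousAt]
  intro φ
  have h := (rep_tendsto_all hs).1 (tendsto_id (x := 𝓝 φ)) w
  have h2 : Continuous fun g : GL (Fin n) ℂ => trace g.1 :=
    Units.continuous_val.matrix_trace
  exact (h2.tendsto _).comp h

lemma tr_smul (w : Γ) (g : GL (Fin n) ℂ) (φ : Rep s (GL (Fin n) ℂ)) : tr w (g • φ) = tr w φ := by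
  show trace (g * φ.hom w * g⁻¹ : GL (Fin n) ℂ).1 = trace (φ.hom w).1
  rw [Units.val_mul, trace_mul_comm, Units.val_mul, ← Matrix.mul_assoc, gl_inv_mul, Matrix.one_mul]

/-- the trace function on the quotient -/
noncomputable def trX (w : Γ) : XG s (GL (Fin n) ℂ) → ℂ :=
  Quotient.lift (fun φ : Polystable s (GL (Fin n) ℂ) => tr w φ.1) (by
    rintro φ φ' ⟨g, rfl⟩
    exact tr_smul w g φ'.1)

lemma trX_continuous (hs : Subgroup.closure (Set.range s) = ⊤) (w : Γ) :
    Continuous (trX w : XG s (GL (Fin n) ℂ) → ℂ) :=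
  Continuous.quotient_lift ((tr_continuous hs w).comp continuous_subtype_val) _

/-- if a trace function takes only two values, one of which is attained but too large for unitary
homomorphisms, then some nonempty open and closed subset does not meet the image of the unitary
homomorphisms -/
theorem exists_clopen (hs : Subgroup.closure (Set.range s) = ⊤) (w : Γ) {c d : ℂ}
    (hdich : ∀ φ : Γ →* GL (Fin n) ℂ, trace (φ w).1 = c ∨ trace (φ w).1 = d) (hcd : c ≠ d)
    (hd : (n : ℝ) < ‖d‖) (φ₀ : Γ →* GL (Fin n) ℂ) (h₀ : trace (φ₀ w).1 = d)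
    (h : ∀ ψ : Rep s (U n), IsClosed (MulAction.orbit (GL (Fin n) ℂ) (incl s (U n) ψ))) :
    ∃ W : Set (XG s (GL (Fin n) ℂ)), IsClopen W ∧ W.Nonempty ∧
      Disjoint W (Set.range (iG s (U n) h)) := by
  obtain ⟨φ', hφ', hcl⟩ := exists_closed_orbit hs (⟨φ₀⟩ : Rep s (GL (Fin n) ℂ))
  have h1 : tr w φ' = d := by
    have hsub : MulAction.orbit (GL (Fin n) ℂ) (⟨φ₀⟩ : Rep s (GL (Fin n) ℂ)) ⊆ {χ | tr w χ = d} := by
      rintro _ ⟨g, rfl⟩
      show tr w (g • (⟨φ₀⟩ : Rep s (GL (Fin n) ℂ))) = d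
      rw [tr_smul]
      exact h₀
    exact closure_minimal hsub (isClosed_eq (tr_continuous hs w) continuous_const) hcl
  have hall : ∀ x : XG s (GL (Fin n) ℂ), trX w x = c ∨ trX w x = d := by
    intro x
    induction x using Quotient.inductionOn with
    | h φ => exact hdich φ.1.hom
  refine ⟨{x | trX w x = d}, ⟨?_, ?_⟩, ⟨Quotient.mk _ ⟨φ', hφ'⟩, h1⟩, ?_⟩
  · exact isClosed_eq (trX_continuous hs w) continuous_const
  · rw [← isClosed_compl_iff]
    have : {x : XG s (GL (Fin n) ℂ) | trX w x = d}ᶜ = {x | trX w x = c} := by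
      ext x
      simp only [Set.mem_compl_iff, Set.mem_ofPred_eq]
      constructor
      · exact fun h => (hall _).resolve_right h
      · intro h h'
        exact hcd (h.symm.trans h')
    rw [this]
    exact isClosed_eq (trX_continuous hs w) continuous_const
  · rw [Set.disjoint_left]
    rintro x hx ⟨y, rfl⟩
    obtain ⟨ψ, rfl⟩ := Quotient.exists_rep y
    have h2 : trace (ψ.hom w : GL (Fin n) ℂ).1 = d := hx
    have h3 : ‖trace (ψ.hom w : GL (Fin n) ℂ).1‖ ≤ n := by
      rw [trace]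
      refine (norm_sum_le _ _).trans ?_
      refine (Finset.sum_le_sum fun i _ => Grp.K_entry (ψ.hom w).2 i i).trans ?_
      simp
    rw [h2] at h3
    exact absurd h3 (not_le.2 hd)

end

/-- an open and closed set which does not meet the image of `i` shows that `i` is not a strong
deformation retraction -/
theorem not_sdr {Y X : Type} [TopologicalSpace Y] [TopologicalSpace X] {i : Y → X} {W : Set X}
    (hW : IsClopen W) (hne : W.Nonempty) (hd : Disjoint W (Set.range i)) : ¬ IsSDR i := by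
  rintro ⟨-, ρ, -, -, H, hH, hH0, hH1, -⟩
  obtain ⟨x₀, hx₀⟩ := hne
  have hcont : Continuous fun t : unitInterval => H (x₀, t) := hH.comp (by fun_prop)
  have h1 : (fun t : unitInterval => H (x₀, t)) ⁻¹' W = Set.univ := by
    rcases isClopen_iff.1 (hW.preimage hcont) with h | h
    · exfalso
      have : (0 : unitInterval) ∈ (fun t : unitInterval => H (x₀, t)) ⁻¹' W := by
        show H (x₀, 0) ∈ W
        rw [hH0]
        exact hx₀
      rw [h] at this
      exact this
    · exact h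
  have h2 : (1 : unitInterval) ∈ (fun t : unitInterval => H (x₀, t)) ⁻¹' W := by
    rw [h1]; trivial
  have h3 : H (x₀, 1) ∈ W := h2
  rw [hH1] at h3
  exact Set.disjoint_left.1 hd h3 ⟨_, rfl⟩

end Pool.Agent.Helper92.AM
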