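import Pool.Agent.Helper92.AM.Dich
import Pool.Agent.Helper92.AM.Top

/-!
The amalgam and its representation.
-/

open Matrix
open scoped ComplexConjugate ComplexOrder

namespace Pool.Agent.Helper92.AM

open Pool.Agent.Helper92.FL

/-- the amalgamated subgroup -/
abbrev C : Type := Multiplicative (ℤ × ℤ)

/-- the embedding of `C` in the first factor -/
def φA : C →* E where
  toFun c := ⟨c.toAdd.1, c.toAdd.2, 0, 0⟩
  map_one' := rfl
  map_mul' a b := by simp [E.mul_def]

/-- the embedding of `C` in the second factor -/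
def φB : C →* E where
  toFun c := ⟨0, 0, c.toAdd.1, c.toAdd.2⟩
  map_one' := rfl
  map_mul' a b := by simp [E.mul_def]

/-- the two embeddings -/
def emb : ∀ _ : Bool, C →* E := fun i => if i then φB else φA

lemma φA_inj : Function.Injective φA := by
  intro a b h
  have h1 : a.toAdd.1 = b.toAdd.1 := congrArg E.u h
  have h2 : a.toAdd.2 = b.toAdd.2 := congrArg E.v h
  exact Multiplicative.toAdd.injective (Prod.ext h1 h2)

lemma φB_inj : Function.Injective φB := by
  intro a b h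
  have h1 : a.toAdd.1 = b.toAdd.1 := congrArg E.w h
  have h2 : a.toAdd.2 = b.toAdd.2 := congrArg E.k h
  exact Multiplicative.toAdd.injective (Prod.ext h1 h2)

lemma emb_inj (i : Bool) : Function.Injective (emb i) := by
  cases i
  · exact φA_inj
  · exact φB_inj

/-- the amalgamated free product -/
abbrev Gam : Type := Monoid.PushoutI emb

noncomputable def ofA : E →* Gam := Monoid.PushoutI.of (φ := emb) false

noncomputable def ofB : E →* Gam := Monoid.PushoutI.of (φ := emb) true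

lemma of_eq (c : C) : ofA (φA c) = ofB (φB c) := by
  have h1 := Monoid.PushoutI.of_apply_eq_base emb false c
  have h2 := Monoid.PushoutI.of_apply_eq_base emb true c
  exact h1.trans h2.symm

/-- the word -/
noncomputable def w : Gam :=
  ofA ⟨24, 24, 24, 0⟩ * ofB ⟨1, 0, 0, 0⟩ * (ofA ⟨24, 24, 24, 0⟩)⁻¹ * (ofB ⟨1, 0, 0, 0⟩)⁻¹

lemma dich (φ : Gam →* GL (Fin 4) ℂ) : trace (φ w).1 = 4 ∨ trace (φ w).1 = 580 := by
  have h1 : (φ.comp ofA) ⟨1, 0, 0, 0⟩ = (φ.comp ofB) ⟨0, 0, 1, 0⟩ :=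
    congrArg φ (of_eq (Multiplicative.ofAdd (1, 0)))
  have h2 : (φ.comp ofA) ⟨0, 1, 0, 0⟩ = (φ.comp ofB) ⟨0, 0, 0, 1⟩ :=
    congrArg φ (of_eq (Multiplicative.ofAdd (0, 1)))
  have := dichotomy h1 h2
  rw [w, map_mul, map_mul, map_mul, map_inv, map_inv]
  exact this

/-- the integral representation of the first factor -/
def ρA : E →* Matrix (Fin 4) (Fin 4) ℤ where
  toFun a := !![1, 0, a.v - a.k * a.u, a.u;
    a.k, 1, a.w - a.k * a.v, a.v;
    0, 0, 1, 0;
    0, 0, -a.k, 1]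
  map_one' := by decide
  map_mul' a b := by
    ext i j
    fin_cases i <;> fin_cases j <;>
    simp [Matrix.mul_apply, Fin.sum_univ_four, E.mul_def] <;> ring

/-- the integral representation of the second factor -/
def ρB : E →* Matrix (Fin 4) (Fin 4) ℤ where
  toFun a := !![1, -a.v, a.k, a.w - a.k * a.v;
    0, 1, 0, a.k;
    0, -a.u, 1, a.v - a.k * a.u;
    0, 0, 0, 1]
  map_one' := by decide
  map_mul' a b := by
    ext i j
    fin_cases i <;> fin_cases j <;>
    simp [Matrix.mul_apply, Fin.sum_univ_four, E.mul_def] <;> ring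

/-- to complex matrices -/
noncomputable def cast : Matrix (Fin 4) (Fin 4) ℤ →* Matrix (Fin 4) (Fin 4) ℂ :=
  ((Int.castRingHom ℂ).mapMatrix : Matrix (Fin 4) (Fin 4) ℤ →+* Matrix (Fin 4) (Fin 4) ℂ)

noncomputable def αA : E →* GL (Fin 4) ℂ := (cast.comp ρA).toHomUnits

noncomputable def αB : E →* GL (Fin 4) ℂ := (cast.comp ρB).toHomUnits

lemma α_eq (c : C) : αA (φA c) = αB (φB c) := by
  apply Units.ext
  show cast (ρA (φA c)) = cast (ρB (φB c))
  congr 1
  show (!![1, 0, c.toAdd.2 - 0 * c.toAdd.1, c.toAdd.1;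
    0, 1, 0 - 0 * c.toAdd.2, c.toAdd.2;
    0, 0, 1, 0;
    0, 0, -0, 1] : Matrix (Fin 4) (Fin 4) ℤ) = !![1, -0, c.toAdd.2, c.toAdd.1 - c.toAdd.2 * 0;
    0, 1, 0, c.toAdd.2;
    0, -0, 1, 0 - c.toAdd.2 * 0;
    0, 0, 0, 1]
  simp

/-- the representation -/
noncomputable def rho : Gam →* GL (Fin 4) ℂ :=
  Monoid.PushoutI.lift (fun i => if i then αB else αA) (αA.comp φA) (by
    intro i
    cases i
    · rfl
    · exact MonoidHom.ext fun c => (α_eq c).symm)

lemma rho_A (a : E) : rho (ofA a) = αA a := by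
  unfold rho ofA
  rw [Monoid.PushoutI.lift_of]
  rfl

lemma rho_B (a : E) : rho (ofB a) = αB a := by
  unfold rho ofB
  rw [Monoid.PushoutI.lift_of]
  rfl

lemma trace_rho : trace (rho w).1 = 580 := by
  have h1 : (rho w).1 = cast (ρA ⟨24, 24, 24, 0⟩ * ρB ⟨1, 0, 0, 0⟩ * ρA (⟨24, 24, 24, 0⟩⁻¹) *
      ρB (⟨1, 0, 0, 0⟩⁻¹)) := by
    rw [w, map_mul, map_mul, map_mul, ← map_inv, ← map_inv, rho_A, rho_B, rho_A,
      rho_B, map_mul, map_mul, map_mul]
    rfl
  have h2 : trace (ρA ⟨24, 24, 24, 0⟩ * ρB ⟨1, 0, 0, 0⟩ * ρA (⟨24, 24, 24, 0⟩⁻¹) *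
      ρB (⟨1, 0, 0, 0⟩⁻¹)) = 580 := by decide
  have h3 : ∀ A : Matrix (Fin 4) (Fin 4) ℤ, trace (cast A) = ((trace A : ℤ) : ℂ) := by
    intro A
    show ∑ i, ((A i i : ℤ) : ℂ) = ((∑ i, A i i : ℤ) : ℂ)
    push_cast
    rfl
  rw [h1, h3, h2]
  norm_num

lemma fg : Group.FG Gam := by
  rw [Group.fg_iff]
  refine ⟨Set.range (ofA ∘ E.gens) ∪ Set.range (ofB ∘ E.gens), ?_,
    (Set.finite_range _).union (Set.finite_range _)⟩
  rw [eq_top_iff]
  have key : ∀ (f : E →* Gam) (a : E), f a ∈ Subgroup.closure (Set.range (f ∘ E.gens)) := by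
    intro f a
    have h1 : a ∈ Subgroup.closure (Set.range E.gens) := by rw [E.closure_gens]; trivial
    have h2 : f a ∈ (Subgroup.closure (Set.range E.gens)).map f := ⟨a, h1, rfl⟩
    rw [MonoidHom.map_closure, ← Set.range_comp] at h2
    exact h2
  have kA : ∀ a, ofA a ∈ Subgroup.closure (Set.range (ofA ∘ E.gens) ∪ Set.range (ofB ∘ E.gens)) :=
    fun a => Subgroup.closure_mono Set.subset_union_left (key ofA a)
  have kB : ∀ a, ofB a ∈ Subgroup.closure (Set.range (ofA ∘ E.gens) ∪ Set.range (ofB ∘ E.gens)) :=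
    fun a => Subgroup.closure_mono Set.subset_union_right (key ofB a)
  intro x _
  induction x using Monoid.PushoutI.induction_on with
  | of i g =>
    cases i
    · exact kA g
    · exact kB g
  | base h =>
    rw [← Monoid.PushoutI.of_apply_eq_base emb false h]
    exact kA (φA h)
  | mul x y hx hy => exact mul_mem (hx trivial) (hy trivial)

lemma exists_family (G : Type) [Group G] (h : Group.FG G) :
    ∃ (q : ℕ) (s : Fin q → G), Subgroup.closure (Set.range s) = ⊤ := by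
  obtain ⟨S, hS⟩ := h.out
  refine ⟨S.card, fun i => (S.equivFin.symm i).1, ?_⟩
  rw [← hS]
  congr 1
  ext x
  constructor
  · rintro ⟨i, rfl⟩
    exact (S.equivFin.symm i).2
  · intro hx
    exact ⟨S.equivFin ⟨x, hx⟩, by simp⟩

end Pool.Agent.Helper92.AM
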